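import Mathlib

/-!
# A clique in a vertex-critical graph

`G` not `d`-colourable, `G - v` `d`-colourable for every `v`, `Q` a clique, not all vertices: `G - Q` is connected
and touches every vertex of `Q`; so `G` has a complete minor with `|Q| + 1` branch sets.
-/

set_option autoImplicit false

namespace Pool.Agent.Lib.MP_534936_co.TK

universe u

theorem exists_perm_of_injective {Q : Type u} [Finite Q] (d : ℕ) (g1 g2 : Q → Fin d)
    (h1 : Function.Injective g1) (h2 : Function.Injective g2) :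
    ∃ π : Equiv.Perm (Fin d), ∀ q, π (g1 q) = g2 q := by
  classical
  let e1 := Equiv.ofInjective g1 h1
  let e2 := Equiv.ofInjective g2 h2
  let e : {x // x ∈ Set.range g1} ≃ {x // x ∈ Set.range g2} := e1.symm.trans e2
  refine ⟨e.extendSubtype, fun q => ?_⟩
  rw [Equiv.extendSubtype_apply_of_mem e (g1 q) ⟨q, rfl⟩]
  have h3 : e1.symm ⟨g1 q, ⟨q, rfl⟩⟩ = q := by
    rw [Equiv.symm_apply_eq]
    rfl
  show ((e2 (e1.symm ⟨g1 q, ⟨q, rfl⟩⟩) : {x // x ∈ Set.range g2}) : Fin d) = g2 q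
  rw [h3]
  rfl

/-- no clique separates a vertex-critical graph -/
theorem critical_sub_clique_connected {V : Type u} [Finite V] (G : SimpleGraph V) (d : ℕ) (hG : ¬ G.Colorable d)
    (hcrit : ∀ v : V, (G.induce {a : V | a ≠ v}).Colorable d) (Q : Set V) (hQ : G.IsClique Q)
    (hV : Q ≠ Set.univ) : (G.induce Qᶜ).Connected := by
  classical
  obtain ⟨w, hw⟩ := (Set.ne_univ_iff_exists_notMem Q).1 hV
  have hne : Nonempty (Qᶜ : Set V) := ⟨⟨w, hw⟩⟩
  refine SimpleGraph.Connected.mk ?_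
  rintro ⟨x, hx⟩ ⟨y, hy⟩
  by_contra hxy
  let C : Set V := {a | ∃ h : a ∈ Qᶜ, (G.induce Qᶜ).Reachable ⟨x, hx⟩ ⟨a, h⟩}
  have hxC : x ∈ C := ⟨hx, SimpleGraph.Reachable.refl _⟩
  have hyC : y ∉ C := fun ⟨_, h⟩ => hxy h
  have hCQ : ∀ a ∈ C, a ∉ Q := fun a ⟨h, _⟩ => h
  have hstep : ∀ a ∈ C, ∀ b, G.Adj a b → b ∉ C → b ∈ Q := by
    rintro a ⟨ha, hr⟩ b hab hb
    by_contra hbQ
    refine hb ⟨hbQ, hr.trans ?_⟩
    exact SimpleGraph.Adj.reachable (show (G.induce Qᶜ).Adj ⟨a, ha⟩ ⟨b, hbQ⟩ from hab)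
  obtain ⟨c1⟩ := hcrit y
  obtain ⟨c2⟩ := hcrit x
  have hQy : ∀ q ∈ Q, q ≠ y := fun q hq h => hy (h ▸ hq)
  have hQx : ∀ q ∈ Q, q ≠ x := fun q hq h => hx (h ▸ hq)
  obtain ⟨π, hπ⟩ := exists_perm_of_injective (Q := Q) d (fun q => c1 ⟨q.1, hQy q.1 q.2⟩)
    (fun q => c2 ⟨q.1, hQx q.1 q.2⟩)
    (by
      intro q q' h
      by_contra hne
      refine c1.valid (v := ⟨q.1, hQy q.1 q.2⟩) (w := ⟨q'.1, hQy q'.1 q'.2⟩) ?_ h
      exact hQ q.2 q'.2 (fun h' => hne (Subtype.ext h')))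
    (by
      intro q q' h
      by_contra hne
      refine c2.valid (v := ⟨q.1, hQx q.1 q.2⟩) (w := ⟨q'.1, hQx q'.1 q'.2⟩) ?_ h
      exact hQ q.2 q'.2 (fun h' => hne (Subtype.ext h')))
  have hCy : ∀ a ∈ C, a ≠ y := fun a ha h => hyC (h ▸ ha)
  have hCx : ∀ a, a ∉ C → a ≠ x := fun a ha h => ha (h ▸ hxC)
  apply hG
  let col : V → Fin d := fun a => if h : a ∈ C then π (c1 ⟨a, hCy a h⟩) else c2 ⟨a, hCx a h⟩
  have hin : ∀ a (h : a ∈ C), col a = π (c1 ⟨a, hCy a h⟩) := fun a h => dif_pos h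
  have hout : ∀ a (h : a ∉ C), col a = c2 ⟨a, hCx a h⟩ := fun a h => dif_neg h
  have key : ∀ a b, G.Adj a b → a ∈ C → b ∉ C → col a ≠ col b := by
    intro a b hab ha hb
    have hbQ := hstep a ha b hab hb
    rw [hin a ha, hout b hb, ← hπ ⟨b, hbQ⟩]
    intro h
    refine c1.valid (v := ⟨a, hCy a ha⟩) (w := ⟨b, hQy b hbQ⟩) ?_ (π.injective h)
    exact hab
  refine ⟨SimpleGraph.Coloring.mk col ?_⟩
  intro a b hab
  by_cases ha : a ∈ C
  · by_cases hb : b ∈ C
    · rw [hin a ha, hin b hb]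
      intro h
      refine c1.valid (v := ⟨a, hCy a ha⟩) (w := ⟨b, hCy b hb⟩) ?_ (π.injective h)
      exact hab
    · exact key a b hab ha hb
  · by_cases hb : b ∈ C
    · exact fun h => key b a hab.symm hb ha h.symm
    · rw [hout a ha, hout b hb]
      refine c2.valid (v := ⟨a, hCx a ha⟩) (w := ⟨b, hCx b hb⟩) ?_
      exact hab

/-- every vertex of the clique has a neighbour outside -/
theorem critical_clique_touches {V : Type u} [Finite V] (G : SimpleGraph V) (d : ℕ) (hG : ¬ G.Colorable d)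
    (hcrit : ∀ v : V, (G.induce {a : V | a ≠ v}).Colorable d) (Q : Set V) (hQ : G.IsClique Q)
    (hV : Q ≠ Set.univ) (q : V) (hq : q ∈ Q) : ∃ a ∈ Qᶜ, G.Adj q a := by
  classical
  by_contra hno
  push Not at hno
  obtain ⟨w, hw⟩ := (Set.ne_univ_iff_exists_notMem Q).1 hV
  have hcard : Q.ncard ≤ d := by
    obtain ⟨c⟩ := hcrit w
    have hQw : ∀ q ∈ Q, q ≠ w := fun q hq h => hw (h ▸ hq)
    have hinj : Function.Injective (fun q : Q => c ⟨q.1, hQw q.1 q.2⟩) := by
      intro q q' h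
      by_contra hne
      refine c.valid (v := ⟨q.1, hQw q.1 q.2⟩) (w := ⟨q'.1, hQw q'.1 q'.2⟩) ?_ h
      exact hQ q.2 q'.2 (fun h' => hne (Subtype.ext h'))
    have h1 := Nat.card_le_card_of_injective _ hinj
    rw [Nat.card_coe_set_eq, Nat.card_eq_fintype_card, Fintype.card_fin] at h1
    exact h1
  obtain ⟨c⟩ := hcrit q
  -- a colour not used on `Q - q`
  have hfree : ∃ i : Fin d, ∀ a (h : a ≠ q), a ∈ Q → c ⟨a, h⟩ ≠ i := by
    by_contra hall
    push Not at hall
    choose g hg1 hg2 hg3 using hall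
    have hginj : Function.Injective g := by
      intro i j hij
      rw [← hg3 i, ← hg3 j]
      congr 1
      exact Subtype.ext hij
    have hsub : Set.range g ⊆ Q \ {q} := by
      rintro _ ⟨i, rfl⟩
      exact ⟨hg2 i, hg1 i⟩
    have h1 : (Set.range g).ncard ≤ (Q \ {q}).ncard := Set.ncard_le_ncard hsub (Set.toFinite _)
    rw [Set.ncard_range_of_injective hginj, Nat.card_eq_fintype_card, Fintype.card_fin] at h1
    have h2 : (Q \ {q}).ncard < Q.ncard := Set.ncard_sdiff_singleton_lt_of_mem hq (Set.toFinite _)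
    omega
  obtain ⟨i, hi⟩ := hfree
  apply hG
  refine ⟨SimpleGraph.Coloring.mk (fun a => if h : a ≠ q then c ⟨a, h⟩ else i) ?_⟩
  intro a b hab
  show (if h : a ≠ q then c ⟨a, h⟩ else i) ≠ (if h : b ≠ q then c ⟨b, h⟩ else i)
  by_cases ha : a ≠ q
  · by_cases hb : b ≠ q
    · rw [dif_pos ha, dif_pos hb]
      refine c.valid (v := ⟨a, ha⟩) (w := ⟨b, hb⟩) ?_
      exact hab
    · rw [dif_pos ha, dif_neg hb]
      have hb' : b = q := not_not.1 hb
      subst hb'
      refine hi a ha ?_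
      by_contra haQ
      exact hno a haQ hab.symm
  · have ha' : a = q := not_not.1 ha
    subst ha'
    have hb : b ≠ a := fun h => G.ne_of_adj hab h.symm
    rw [dif_neg ha, dif_pos hb]
    refine fun h => hi b hb ?_ h.symm
    by_contra hbQ
    exact hno b hbQ hab

theorem minor_of_critical_clique {V : Type u} [Finite V] (G : SimpleGraph V) (d : ℕ) (hG : ¬ G.Colorable d)
    (hcrit : ∀ v : V, (G.induce {a : V | a ≠ v}).Colorable d) (Q : Set V) (hQ : G.IsClique Q)
    (hV : Q ≠ Set.univ) :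
    ∃ f : Fin (Q.ncard + 1) → Set V, (∀ q ∈ Q, ∃ i, f i = {q}) ∧ (∀ i, (G.induce (f i)).Connected) ∧
      ∀ i j, i ≠ j → Disjoint (f i) (f j) ∧ ∃ x ∈ f i, ∃ y ∈ f j, G.Adj x y := by
  classical
  haveI : Fintype V := Fintype.ofFinite V
  have hcard : Fintype.card (Option Q) = Q.ncard + 1 := by
    rw [Fintype.card_option, ← Nat.card_eq_fintype_card, Nat.card_coe_set_eq]
  let e : Fin (Q.ncard + 1) ≃ Option Q := (Fintype.equivFinOfCardEq hcard).symm
  let F : Option Q → Set V := fun o => o.elim Qᶜ (fun q => {q.1})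
  have hFc : ∀ o, (G.induce (F o)).Connected := by
    intro o
    cases o with
    | none => exact critical_sub_clique_connected G d hG hcrit Q hQ hV
    | some q =>
      show (G.induce ({q.1} : Set V)).Connected
      haveI : Subsingleton ({q.1} : Set V) := by
        rw [Set.subsingleton_coe]
        exact Set.subsingleton_singleton
      haveI : Nonempty ({q.1} : Set V) := ⟨⟨q.1, rfl⟩⟩
      exact ⟨fun a b => by rw [Subsingleton.elim a b]⟩
  have hFa : ∀ o o', o ≠ o' → Disjoint (F o) (F o') ∧ ∃ x ∈ F o, ∃ y ∈ F o', G.Adj x y := by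
    intro o o' hne
    cases o with
    | none =>
      cases o' with
      | none => exact absurd rfl hne
      | some q =>
        obtain ⟨a, ha, hqa⟩ := critical_clique_touches G d hG hcrit Q hQ hV q.1 q.2
        refine ⟨?_, a, ha, q.1, rfl, hqa.symm⟩
        show Disjoint (Qᶜ : Set V) ({q.1} : Set V)
        rw [Set.disjoint_singleton_right]
        exact fun h => h q.2
    | some q =>
      cases o' with
      | none =>
        obtain ⟨a, ha, hqa⟩ := critical_clique_touches G d hG hcrit Q hQ hV q.1 q.2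
        refine ⟨?_, q.1, rfl, a, ha, hqa⟩
        show Disjoint ({q.1} : Set V) (Qᶜ : Set V)
        rw [Set.disjoint_singleton_left]
        exact fun h => h q.2
      | some q' =>
        have hqq : q.1 ≠ q'.1 := fun h => hne (by rw [Subtype.ext h])
        refine ⟨?_, q.1, rfl, q'.1, rfl, hQ q.2 q'.2 hqq⟩
        show Disjoint ({q.1} : Set V) ({q'.1} : Set V)
        rw [Set.disjoint_singleton]
        exact hqq
  refine ⟨fun i => F (e i), fun q hq => ⟨e.symm (some ⟨q, hq⟩), ?_⟩, fun i => hFc _, fun i j hij => hFa _ _ (fun h => hij (e.injective h))⟩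
  show F (e (e.symm (some ⟨q, hq⟩))) = {q}
  rw [Equiv.apply_symm_apply]
  rfl

end Pool.Agent.Lib.MP_534936_co.TK
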