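import Pool.Agent.Lib.MP_534936_co.TK.Defs

set_option autoImplicit false

namespace Pool.Agent.Lib.MP_534936_co.TK

universe u v w

/-- contraction of the classes of an equivalence relation generated by edges is a minor map -/
theorem contr_minorMap {V : Type u} (G : SimpleGraph V) (Q : V → V → Prop)
    (hQ : ∀ a b, Q a b → G.Adj a b) :
    IsMinorMap G
      (SimpleGraph.fromRel (fun p p' : Quotient (Relation.EqvGen.setoid Q) =>
        ∃ a b, Quotient.mk (Relation.EqvGen.setoid Q) a = p ∧
          Quotient.mk (Relation.EqvGen.setoid Q) b = p' ∧ G.Adj a b))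
      (fun a => some (Quotient.mk (Relation.EqvGen.setoid Q) a)) := by
  have hr : ∀ a b, Relation.EqvGen Q a b → ∀ (p : Quotient (Relation.EqvGen.setoid Q))
      (ha : some (Quotient.mk (Relation.EqvGen.setoid Q) a) = some p)
      (hb : some (Quotient.mk (Relation.EqvGen.setoid Q) b) = some p),
      (G.induce {x | some (Quotient.mk (Relation.EqvGen.setoid Q) x) = some p}).Reachable
        ⟨a, ha⟩ ⟨b, hb⟩ := by
    intro a b h
    induction h with
    | rel x y hxy =>
      intro p ha hb
      refine SimpleGraph.Adj.reachable ?_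
      rw [SimpleGraph.induce_adj]
      exact hQ x y hxy
    | refl x => intro p ha hb; exact SimpleGraph.Reachable.refl _
    | symm x y _ ih => intro p ha hb; exact (ih p hb ha).symm
    | trans x y z hxy hyz ih1 ih2 =>
      intro p ha hb
      have hy : some (Quotient.mk (Relation.EqvGen.setoid Q) y) = some p := by
        rw [← ha]
        exact congrArg some (Quotient.sound (Relation.EqvGen.symm _ _ hxy))
      exact (ih1 p ha hy).trans (ih2 p hy hb)
  refine ⟨fun p => ?_, fun p p' h => ?_⟩
  · obtain ⟨a, ha⟩ := Quotient.exists_rep p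
    rw [SimpleGraph.connected_iff]
    refine ⟨fun x y => ?_, ⟨⟨a, congrArg some ha⟩⟩⟩
    obtain ⟨x, hx⟩ := x
    obtain ⟨y, hy⟩ := y
    have hxy : Quotient.mk (Relation.EqvGen.setoid Q) x
        = Quotient.mk (Relation.EqvGen.setoid Q) y :=
      Option.some.inj (Eq.trans hx (Eq.symm hy))
    exact hr x y (Quotient.exact hxy) p hx hy
  · rw [SimpleGraph.fromRel_adj] at h
    obtain ⟨-, ⟨a, b, ha, hb, hab⟩ | ⟨a, b, ha, hb, hab⟩⟩ := h
    · exact ⟨a, b, congrArg some ha, congrArg some hb, hab⟩
    · exact ⟨b, a, congrArg some hb, congrArg some ha, hab.symm⟩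

end Pool.Agent.Lib.MP_534936_co.TK
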