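import Pool.Agent.Lib.MP_534936_co.TK.Defs

set_option autoImplicit false

namespace Pool.Agent.Lib.MP_534936_co.TK

universe u

/-- Kempe chains: `G` is not `N`-colourable, `c` is a proper `N`-colouring of `G - v`, every neighbour
of `v` is the root of its colour; then any two roots are Kempe linked in `G - v`. (Otherwise swap
the colours `x` and `y` on the closed set containing `r x` and give `v` the colour `x`.) -/
theorem kempe_linked {V : Type u} (G : SimpleGraph V) (v : V) (N : ℕ) (hG : ¬ G.Colorable N)
    (c : {a : V | a ≠ v} → Fin N) (hc : ∀ a b, (G.induce {a : V | a ≠ v}).Adj a b → c a ≠ c b)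
    (r : Fin N → {a : V | a ≠ v}) (hr : ∀ i, c (r i) = i)
    (hN : ∀ a : {a : V | a ≠ v}, G.Adj v a → a = r (c a)) (x y : Fin N) (hxy : x ≠ y) :
    Linked (G.induce {a : V | a ≠ v}) c r x y := by
  classical
  intro C hx hC
  by_contra hy
  apply hG
  have _ := hr
  -- the new colour of a vertex other than `v`
  set d : {a : V | a ≠ v} → Fin N := fun a => if a ∈ C then Equiv.swap x y (c a) else c a with hd
  have hdin : ∀ a, a ∈ C → d a = Equiv.swap x y (c a) := fun a ha => if_pos ha
  have hdout : ∀ a, a ∉ C → d a = c a := fun a ha => if_neg ha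
  -- one end in `C`, one end outside
  have key : ∀ a b, (G.induce {a : V | a ≠ v}).Adj a b → a ∈ C → b ∉ C → d a ≠ d b := by
    intro a b hab ha hb hE
    rw [hdin a ha, hdout b hb] at hE
    have hbx : c b ≠ x := fun h => hb (hC a ha b hab (Or.inl h))
    have hby : c b ≠ y := fun h => hb (hC a ha b hab (Or.inr h))
    by_cases h1 : c a = x
    · rw [h1, Equiv.swap_apply_left] at hE
      exact hby hE.symm
    · by_cases h2 : c a = y
      · rw [h2, Equiv.swap_apply_right] at hE
        exact hbx hE.symm
      · rw [Equiv.swap_apply_of_ne_of_ne h1 h2] at hE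
        exact hc a b hab hE
  have hdd : ∀ a b, (G.induce {a : V | a ≠ v}).Adj a b → d a ≠ d b := by
    intro a b hab
    by_cases ha : a ∈ C
    · by_cases hb : b ∈ C
      · rw [hdin a ha, hdin b hb]
        intro h
        exact hc a b hab ((Equiv.swap x y).injective h)
      · exact key a b hab ha hb
    · by_cases hb : b ∈ C
      · exact fun h => key b a hab.symm hb ha h.symm
      · rw [hdout a ha, hdout b hb]
        exact hc a b hab
  -- no neighbour of `v` has the new colour `x`
  have hdv : ∀ a : {a : V | a ≠ v}, G.Adj v a → d a ≠ x := by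
    intro a hva h
    have har := hN a hva
    by_cases ha : a ∈ C
    · rw [hdin a ha] at h
      have h3 : c a = y := by
        have h4 : Equiv.swap x y (c a) = Equiv.swap x y y := by
          rw [h, Equiv.swap_apply_right]
        exact (Equiv.swap x y).injective h4
      rw [h3] at har
      rw [har] at ha
      exact hy ha
    · rw [hdout a ha] at h
      rw [h] at har
      rw [har] at ha
      exact ha hx
  have hxy' := hxy
  refine ⟨SimpleGraph.Coloring.mk (fun a => if h : a ≠ v then d ⟨a, h⟩ else x) ?_⟩
  intro a b hab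
  show (if h : a ≠ v then d ⟨a, h⟩ else x) ≠ (if h : b ≠ v then d ⟨b, h⟩ else x)
  by_cases ha : a ≠ v
  · by_cases hb : b ≠ v
    · rw [dif_pos ha, dif_pos hb]
      exact hdd ⟨a, ha⟩ ⟨b, hb⟩ hab
    · rw [dif_pos ha, dif_neg hb]
      have hb' : b = v := not_not.mp hb
      subst hb'
      exact hdv ⟨a, ha⟩ hab.symm
  · have ha' : a = v := not_not.mp ha
    have hb : b ≠ v := by
      rintro rfl
      exact hab.ne ha'
    rw [dif_neg ha, dif_pos hb]
    subst ha'
    exact fun h => hdv ⟨b, hb⟩ hab h.symm

end Pool.Agent.Lib.MP_534936_co.TK
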