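import Pool.Agent.Lib.MP_534936_co.TK.K
import Pool.Agent.Lib.MP_534936_co.TK.Kempe

set_option autoImplicit false

namespace Pool.Agent.Lib.MP_534936_co.TK

universe u

/-- **Corollary.** `G` not `N`-colourable, `G - v` `N`-colourable, `v` has at most `N` neighbours and they form two
cliques: then `G` has a `K_{N+1}` minor in which `v` is a branch set. -/
theorem minor_of_bisimplicial {V : Type u} [Finite V] (G : SimpleGraph V) (v : V) (N : ℕ)
    (hG : ¬ G.Colorable N) (hc : (G.induce {a : V | a ≠ v}).Colorable N) (A B : Set V)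
    (hA : G.IsClique A) (hB : G.IsClique B) (hAB : A ∪ B = G.neighborSet v)
    (hdeg : (G.neighborSet v).ncard ≤ N) :
    ∃ f : Fin (N + 1) → Set V, f 0 = {v} ∧ (∀ i, (G.induce (f i)).Connected) ∧
      ∀ i j, i ≠ j → Disjoint (f i) (f j) ∧ ∃ x ∈ f i, ∃ y ∈ f j, G.Adj x y := by
  classical
  haveI : Fintype V := Fintype.ofFinite V
  obtain ⟨c⟩ := hc
  -- every colour occurs on a neighbour of `v`
  have hex : ∀ i : Fin N, ∃ a : {a : V | a ≠ v}, G.Adj v a ∧ c a = i := by
    intro i
    by_contra hno
    push Not at hno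
    apply hG
    refine ⟨SimpleGraph.Coloring.mk (fun a => if h : a ≠ v then c ⟨a, h⟩ else i) ?_⟩
    intro a b hab
    by_cases ha : a = v
    · have hb : b ≠ v := by
        rintro rfl
        exact G.ne_of_adj hab ha
      rw [dif_neg (not_not.2 ha), dif_pos hb]
      subst ha
      exact fun he => hno ⟨b, hb⟩ hab he.symm
    · by_cases hb : b = v
      · rw [dif_pos ha, dif_neg (not_not.2 hb)]
        subst hb
        exact hno ⟨a, ha⟩ hab.symm
      · rw [dif_pos ha, dif_pos hb]
        exact c.valid (v := ⟨a, ha⟩) (w := ⟨b, hb⟩) hab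
  choose r hrv hrc using hex
  -- the roots are all neighbours
  have hinj : Function.Injective fun i => (r i : V) := by
    intro i j hij
    have h1 : r i = r j := Subtype.ext hij
    rw [← hrc i, ← hrc j, h1]
  have hrange : Set.range (fun i => (r i : V)) = G.neighborSet v := by
    refine Set.eq_of_subset_of_ncard_le ?_ ?_ (Set.toFinite _)
    · rintro _ ⟨i, rfl⟩
      exact hrv i
    · rw [Set.ncard_range_of_injective hinj, Nat.card_eq_fintype_card, Fintype.card_fin]
      exact hdeg
  have hN : ∀ a : {a : V | a ≠ v}, G.Adj v a → a = r (c a) := by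
    intro a ha
    have h1 : (a : V) ∈ Set.range (fun i => (r i : V)) := by
      rw [hrange]
      exact ha
    obtain ⟨i, hi⟩ := h1
    have h2 : r i = a := Subtype.ext hi
    rw [← h2, hrc]
  let side : Fin N → Bool := fun i => decide ((r i : V) ∈ A)
  obtain ⟨f, hf1, hf2, hf3⟩ := model_exists (G.induce {a : V | a ≠ v}) c r hrc side
    (fun x y => side x = true ∧ side y = false) (fun x y h => h) (by
      intro x y hxy
      refine kempe_linked G v N hG c (fun a b hab => c.valid hab) r hrc hN x y ?_
      rintro rfl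
      rw [hxy.1] at hxy
      exact absurd hxy.2 (by decide))
  let T : Fin N → Set V := fun i => Subtype.val '' {a : {a : V | a ≠ v} | f a = some i}
  have hT : ∀ i, (G.induce (T i)).Connected := by
    intro i
    have h1 := hf2 i
    let e : ((G.induce {a : V | a ≠ v}).induce {a | f a = some i}) →g G.induce (T i) :=
      { toFun := fun a => ⟨a.1.1, ⟨a.1, a.2, rfl⟩⟩
        map_rel' := fun hab => hab }
    have he : Function.Surjective e := by
      rintro ⟨_, ⟨a, ha, rfl⟩⟩
      exact ⟨⟨a, ha⟩, rfl⟩
    exact h1.map e he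
  have hrT : ∀ i, (r i : V) ∈ T i := fun i => ⟨r i, hf1 i, rfl⟩
  have hvT : ∀ i, v ∉ T i := by
    rintro i ⟨a, -, ha⟩
    exact a.2 ha
  have hdisj : ∀ i j, i ≠ j → Disjoint (T i) (T j) := by
    intro i j hij
    rw [Set.disjoint_left]
    rintro _ ⟨a, ha, rfl⟩ ⟨b, hb, hab⟩
    have h1 : b = a := Subtype.ext hab
    subst h1
    have h2 : f b = some i := ha
    have h3 : f b = some j := hb
    exact hij (Option.some.inj (h2.symm.trans h3))
  have hadj : ∀ i j, i ≠ j → ∃ x ∈ T i, ∃ y ∈ T j, G.Adj x y := by
    intro i j hij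
    have hne : (r i : V) ≠ r j := fun h => hij (hinj h)
    have hB' : ∀ k, side k = false → (r k : V) ∈ B := by
      intro k hk
      have h1 : (r k : V) ∈ A ∪ B := by
        rw [hAB]
        exact hrv k
      rcases h1 with h1 | h1
      · exact absurd (decide_eq_true h1) (by
          intro h2
          have h3 : side k = true := h2
          rw [h3] at hk
          exact absurd hk (by decide))
      · exact h1
    have hA' : ∀ k, side k = true → (r k : V) ∈ A := fun k hk => of_decide_eq_true hk
    cases hi : side i with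
    | true =>
      cases hj : side j with
      | true => exact ⟨r i, hrT i, r j, hrT j, hA (hA' i hi) (hA' j hj) hne⟩
      | false =>
        obtain ⟨a, b, ha, hb, hab⟩ := hf3 i j ⟨hi, hj⟩
        exact ⟨a, ⟨a, ha, rfl⟩, b, ⟨b, hb, rfl⟩, hab⟩
    | false =>
      cases hj : side j with
      | true =>
        obtain ⟨a, b, ha, hb, hab⟩ := hf3 j i ⟨hj, hi⟩
        exact ⟨b, ⟨b, hb, rfl⟩, a, ⟨a, ha, rfl⟩, hab.symm⟩
      | false => exact ⟨r i, hrT i, r j, hrT j, hB (hB' i hi) (hB' j hj) hne⟩
  refine ⟨Fin.cases {v} T, rfl, ?_, ?_⟩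
  · intro i
    refine Fin.cases ?_ (fun i => ?_) i
    · show (G.induce ({v} : Set V)).Connected
      haveI : Subsingleton ({v} : Set V) := by
        rw [Set.subsingleton_coe]
        exact Set.subsingleton_singleton
      haveI : Nonempty ({v} : Set V) := ⟨⟨v, rfl⟩⟩
      exact ⟨fun a b => by rw [Subsingleton.elim a b]⟩
    · exact hT i
  · intro i j
    refine Fin.cases ?_ (fun i => ?_) i
    · refine Fin.cases ?_ (fun j => ?_) j
      · intro h
        exact absurd rfl h
      · intro _
        refine ⟨?_, v, rfl, r j, hrT j, hrv j⟩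
        show Disjoint ({v} : Set V) (T j)
        rw [Set.disjoint_singleton_left]
        exact hvT j
    · refine Fin.cases ?_ (fun j => ?_) j
      · intro _
        refine ⟨?_, r i, hrT i, v, rfl, (hrv i).symm⟩
        show Disjoint (T i) ({v} : Set V)
        rw [Set.disjoint_singleton_right]
        exact hvT i
      · intro hij
        have hij' : i ≠ j := fun h => hij (by rw [h])
        exact ⟨hdisj i j hij', hadj i j hij'⟩

end Pool.Agent.Lib.MP_534936_co.TK
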