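import Pool.Agent.Lib.MP_534936_co.TK.Cor1

set_option autoImplicit false

namespace Pool.Agent.Lib.MP_534936_co.TK

universe u

/-- Hadwiger's conjecture for graphs in which every nonempty induced subgraph has a vertex whose neighbourhood there is
a union of two cliques with at most `d` vertices, when `chi = d + 1`. -/
theorem minor_of_degenerate {V : Type u} [Finite V] (G : SimpleGraph V) (d : ℕ)
    (h : ∀ S : Set V, S.Nonempty → ∃ u ∈ S, ∃ A B : Set V, G.IsClique A ∧ G.IsClique B ∧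
      A ∪ B = {v | v ∈ S ∧ G.Adj u v} ∧ (A ∪ B).ncard ≤ d) (hchi : ¬ G.Colorable d) :
    ∃ f : Fin (d + 1) → Set V, (∀ i, (G.induce (f i)).Connected) ∧
      ∀ i j, i ≠ j → Disjoint (f i) (f j) ∧ ∃ x ∈ f i, ∃ y ∈ f j, G.Adj x y := by
  classical
  have huniv : ¬ (G.induce (Set.univ : Set V)).Colorable d := by
    intro hc
    let e : G →g G.induce (Set.univ : Set V) :=
      { toFun := fun a => ⟨a, trivial⟩, map_rel' := fun hab => hab }
    exact hchi (hc.of_hom e)
  obtain ⟨S, hS, hmin⟩ := Set.exists_min_image {S : Set V | ¬ (G.induce S).Colorable d} Set.ncard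
    (Set.toFinite _) ⟨Set.univ, huniv⟩
  have hS' : ¬ (G.induce S).Colorable d := hS
  have hne : S.Nonempty := by
    by_contra hemp
    rw [Set.not_nonempty_iff_eq_empty] at hemp
    subst hemp
    exact hS' ⟨⟨fun a => absurd a.2 (Set.notMem_empty _), fun {a} => absurd a.2 (Set.notMem_empty _)⟩⟩
  obtain ⟨u, hu, A, B, hA, hB, hAB, hcard⟩ := h S hne
  have hless : (S \ {u}).ncard < S.ncard := Set.ncard_sdiff_singleton_lt_of_mem hu (Set.toFinite _)
  have hcol : (G.induce (S \ {u})).Colorable d := by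
    by_contra hn
    exact absurd (hmin _ hn) (not_le.2 hless)
  let H : SimpleGraph S := G.induce S
  let v : S := ⟨u, hu⟩
  have hHc : (H.induce {a : S | a ≠ v}).Colorable d := by
    let e : H.induce {a : S | a ≠ v} →g G.induce (S \ {u}) :=
      { toFun := fun a => ⟨a.1.1, a.1.2, fun he => a.2 (Subtype.ext he)⟩
        map_rel' := fun hab => hab }
    exact hcol.of_hom e
  have hA' : H.IsClique (Subtype.val ⁻¹' A : Set S) := by
    intro a ha b hb hab
    exact hA ha hb fun he => hab (Subtype.ext he)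
  have hB' : H.IsClique (Subtype.val ⁻¹' B : Set S) := by
    intro a ha b hb hab
    exact hB ha hb fun he => hab (Subtype.ext he)
  have hAB' : (Subtype.val ⁻¹' A : Set S) ∪ (Subtype.val ⁻¹' B : Set S) = H.neighborSet v := by
    ext a
    have h1 : (a : V) ∈ A ∪ B ↔ (a : V) ∈ {v | v ∈ S ∧ G.Adj u v} := by rw [hAB]
    constructor
    · intro ha
      exact (h1.1 ha).2
    · intro ha
      exact h1.2 ⟨a.2, ha⟩
  have hdeg : (H.neighborSet v).ncard ≤ d := by
    rw [← hAB']
    refine le_trans ?_ hcard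
    have h2 : (Subtype.val ⁻¹' A : Set S) ∪ (Subtype.val ⁻¹' B : Set S) =
        Subtype.val ⁻¹' (A ∪ B) := rfl
    rw [h2, ← Set.ncard_image_of_injective (Subtype.val ⁻¹' (A ∪ B) : Set S) Subtype.val_injective]
    exact Set.ncard_le_ncard (Set.image_preimage_subset _ _) (Set.toFinite _)
  obtain ⟨f, -, hconn, hadj⟩ := minor_of_bisimplicial H v d hS' hHc _ _ hA' hB' hAB' hdeg
  refine ⟨fun i => Subtype.val '' f i, fun i => ?_, fun i j hij => ⟨?_, ?_⟩⟩
  · let e : H.induce (f i) →g G.induce (Subtype.val '' f i) :=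
      { toFun := fun a => ⟨a.1.1, a.1, a.2, rfl⟩
        map_rel' := fun hab => hab }
    refine (hconn i).map e ?_
    rintro ⟨a, b, hb, rfl⟩
    exact ⟨⟨b, hb⟩, rfl⟩
  · exact (Set.disjoint_image_iff Subtype.val_injective).2 (hadj i j hij).1
  · obtain ⟨x, hx, y, hy, hxy⟩ := (hadj i j hij).2
    exact ⟨x.1, ⟨x, hx, rfl⟩, y.1, ⟨y, hy, rfl⟩, hxy⟩

end Pool.Agent.Lib.MP_534936_co.TK
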