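import Mathlib

set_option autoImplicit false

namespace Pool.Agent.Lib.MP_534936_co.TK

universe u v w

/-- `C` is closed under steps of `G` to vertices with label `x` or `y` -/
def Closed {V : Type u} {ι : Type v} (G : SimpleGraph V) (φ : V → ι) (x y : ι) (C : Set V) : Prop :=
  ∀ a ∈ C, ∀ b, G.Adj a b → (φ b = x ∨ φ b = y) → b ∈ C

/-- the roots of the labels `x` and `y` are Kempe linked -/
def Linked {V : Type u} {ι : Type v} (G : SimpleGraph V) (φ : V → ι) (r : ι → V) (x y : ι) : Prop :=
  ∀ C : Set V, r x ∈ C → Closed G φ x y C → r y ∈ C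

/-- a rooted model of the requirement relation `D`: the fibres of `f` are the branch sets -/
def Model {V : Type u} {ι : Type v} (G : SimpleGraph V) (r : ι → V) (D : ι → ι → Prop)
    (f : V → Option ι) : Prop :=
  (∀ i, f (r i) = some i) ∧ (∀ i, (G.induce {a | f a = some i}).Connected) ∧
    ∀ x y, D x y → ∃ a b, f a = some x ∧ f b = some y ∧ G.Adj a b

/-- `H` is a minor of `G` through the partial map `q` -/
def IsMinorMap {V : Type u} {W : Type w} (G : SimpleGraph V) (H : SimpleGraph W)
    (q : V → Option W) : Prop :=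
  (∀ p, (G.induce {a | q a = some p}).Connected) ∧
    ∀ p p', H.Adj p p' → ∃ a b, q a = some p ∧ q b = some p' ∧ G.Adj a b

/-- the conclusion of a reduction step -/
def Smaller {V : Type u} [Fintype V] {ι : Type v} (G : SimpleGraph V) (r : ι → V)
    (D : ι → ι → Prop) : Prop :=
  ∃ (W : Type u) (_ : Fintype W) (H : SimpleGraph W) (q : V → Option W) (φ' : W → ι) (r' : ι → W),
    Fintype.card W < Fintype.card V ∧ IsMinorMap G H q ∧ (∀ i, q (r i) = some (r' i)) ∧
    (∀ i, φ' (r' i) = i) ∧ ∀ x y, D x y → Linked H φ' r' x y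

/-- the vector of an edge -/
noncomputable def dvec {U : Type*} (p : U × U) : U → ℚ :=
  fun z => (open Classical in (if z = p.1 then (1 : ℚ) else 0) - (if z = p.2 then (1 : ℚ) else 0))

end Pool.Agent.Lib.MP_534936_co.TK
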