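import Pool.Agent.Lib.MP_534936_co.TK.Defs

set_option autoImplicit false

namespace Pool.Agent.Lib.MP_534936_co.TK

universe u v w

/-- deleting a vertex is a minor map -/
theorem delete_minorMap {V : Type u} (G : SimpleGraph V) (z : V) :
    IsMinorMap G (G.induce {a | a ≠ z})
      (fun a => open Classical in if h : a ≠ z then some (⟨a, h⟩ : {a | a ≠ z}) else none) := by
  constructor
  · intro p
    have key : ∀ a, (open Classical in (if h : a ≠ z then some (⟨a, h⟩ : {a | a ≠ z}) else none))
        = some p → a = p.1 := by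
      intro a ha
      by_cases h : a ≠ z
      · rw [dif_pos h] at ha
        have := Option.some.inj ha
        rw [← this]
      · rw [dif_neg h] at ha
        cases ha
    refine (SimpleGraph.connected_iff _).2 ⟨?_, ?_⟩
    · intro a b
      have hab : a = b := Subtype.ext ((key a.1 a.2).trans (key b.1 b.2).symm)
      rw [hab]
    · refine ⟨⟨p.1, ?_⟩⟩
      have hp : p.1 ≠ z := p.2
      show (open Classical in (if h : p.1 ≠ z then some (⟨p.1, h⟩ : {a | a ≠ z}) else none)) = some p
      rw [dif_pos hp]
  · intro p p' h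
    refine ⟨p.1, p'.1, ?_, ?_, h⟩
    · have hp : p.1 ≠ z := p.2
      simp only
      rw [dif_pos hp]
    · have hp : p'.1 ≠ z := p'.2
      simp only
      rw [dif_pos hp]


/-- being linked is symmetric -/
theorem linked_symm {V : Type u} {ι : Type v} (G : SimpleGraph V) (φ : V → ι) (r : ι → V)
    (hr : ∀ i, φ (r i) = i) (x y : ι) (h : Linked G φ r x y) : Linked G φ r y x := by
  intro C hy hC
  by_contra hx
  have hC' : Closed G φ x y {a | a ∉ C ∧ (φ a = x ∨ φ a = y)} := by
    intro a ha b hab hb
    refine ⟨fun hbC => ha.1 ?_, hb⟩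
    exact hC b hbC a hab.symm ha.2.symm
  have h2 := h {a | a ∉ C ∧ (φ a = x ∨ φ a = y)} ⟨hx, Or.inl (hr x)⟩ hC'
  exact h2.1 hy

end Pool.Agent.Lib.MP_534936_co.TK
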