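import Pool.Agent.Lib.MP_534936_co.TK.Main

set_option autoImplicit false

namespace Pool.Agent.Lib.MP_534936_co.TK

universe u v

/-- **Theorem K**: Kempe linked roots give a rooted minor, for every bipartite requirement graph `D` -/
theorem theoremK {V : Type u} [Finite V] {ι : Type v} [Finite ι] (G : SimpleGraph V) (A : ι → Set V)
    (hA : ∀ i j, i ≠ j → Disjoint (A i) (A j)) (r : ι → V) (hr : ∀ i, r i ∈ A i)
    (side : ι → Bool) (D : ι → ι → Prop) (hD : ∀ x y, D x y → side x = true ∧ side y = false)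
    (hlink : ∀ x y, D x y → ∃ p : G.Walk (r x) (r y), ∀ a ∈ p.support, a ∈ A x ∪ A y) :
    ∃ S : ι → Set V, (∀ i j, i ≠ j → Disjoint (S i) (S j)) ∧ (∀ i, r i ∈ S i) ∧
      (∀ i, (G.induce (S i)).Connected) ∧ (∀ i, S i ⊆ ⋃ j, A j) ∧
      ∀ x y, D x y → ∃ a ∈ S x, ∃ b ∈ S y, G.Adj a b := by
  classical
  let U : Set V := ⋃ j, A j
  let W := {a : V // a ∈ U}
  haveI : Fintype W := Fintype.ofFinite W
  haveI : Fintype ι := Fintype.ofFinite ι
  have hex : ∀ a : W, ∃ j, a.1 ∈ A j := fun a => Set.mem_iUnion.1 a.2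
  choose φ hφ using hex
  have huniq : ∀ (a : W) (j : ι), a.1 ∈ A j → φ a = j := by
    intro a j hj
    by_contra hne
    exact (Set.disjoint_left.1 (hA _ _ hne)) (hφ a) hj
  let r' : ι → W := fun i => ⟨r i, Set.mem_iUnion.2 ⟨i, hr i⟩⟩
  let H : SimpleGraph W := G.comap Subtype.val
  have hr' : ∀ i, φ (r' i) = i := fun i => huniq _ _ (hr i)
  have hl : ∀ x y, D x y → Linked H φ r' x y := by
    intro x y hxy C hC hcl
    obtain ⟨p, hp⟩ := hlink x y hxy
    have key : ∀ (s t : V) (q : G.Walk s t), (∀ a ∈ q.support, a ∈ A x ∪ A y) →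
        ∀ (hs : s ∈ U) (ht : t ∈ U), (⟨s, hs⟩ : W) ∈ C → (⟨t, ht⟩ : W) ∈ C := by
      intro s t q
      induction q with
      | nil => intro _ hs ht h; exact h
      | @cons s' m t' hadj q ih =>
        intro hq hs ht h
        have hm : m ∈ A x ∪ A y := by
          apply hq
          rw [SimpleGraph.Walk.support_cons]
          exact List.mem_cons_of_mem _ (SimpleGraph.Walk.start_mem_support q)
        have hmU : m ∈ U := by
          rcases hm with hm | hm
          · exact Set.mem_iUnion.2 ⟨x, hm⟩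
          · exact Set.mem_iUnion.2 ⟨y, hm⟩
        have hmC : (⟨m, hmU⟩ : W) ∈ C := by
          refine hcl ⟨s', hs⟩ h ⟨m, hmU⟩ hadj ?_
          rcases hm with hm | hm
          · exact Or.inl (huniq _ _ hm)
          · exact Or.inr (huniq _ _ hm)
        refine ih ?_ hmU ht hmC
        intro a ha
        apply hq
        rw [SimpleGraph.Walk.support_cons]
        exact List.mem_cons_of_mem _ ha
    exact key _ _ p hp _ _ hC
  obtain ⟨f, hf1, hf2, hf3⟩ := model_exists H φ r' hr' side D hD hl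
  refine ⟨fun i => {a : V | ∃ h : a ∈ U, f ⟨a, h⟩ = some i}, ?_, ?_, ?_, ?_, ?_⟩
  · intro i j hij
    rw [Set.disjoint_left]
    rintro a ⟨h, h1⟩ ⟨h', h2⟩
    apply hij
    have : some i = some j := by rw [← h1, ← h2]
    exact Option.some.inj this
  · intro i
    exact ⟨Set.mem_iUnion.2 ⟨i, hr i⟩, hf1 i⟩
  · intro i
    have hc := hf2 i
    let g : (H.induce {a | f a = some i}) →g (G.induce {a : V | ∃ h : a ∈ U, f ⟨a, h⟩ = some i}) :=
      { toFun := fun a => ⟨a.1.1, a.1.2, a.2⟩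
        map_rel' := by
          intro a b hab
          exact hab }
    refine SimpleGraph.Connected.map g ?_ hc
    rintro ⟨a, h, h1⟩
    exact ⟨⟨⟨a, h⟩, h1⟩, rfl⟩
  · rintro i a ⟨h, _⟩
    exact h
  · intro x y hxy
    obtain ⟨a, b, ha, hb, hab⟩ := hf3 x y hxy
    exact ⟨a.1, ⟨a.2, ha⟩, b.1, ⟨b.2, hb⟩, hab⟩

end Pool.Agent.Lib.MP_534936_co.TK
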