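import Pool.Agent.Lib.MP_534936_co.TK.Defs

set_option autoImplicit false

namespace Pool.Agent.Lib.MP_534936_co.TK

universe u v w

private theorem bind_of {V : Type u} {W : Type w} {ι : Type v} {q : V → Option W} {f : W → Option ι}
    {a : V} {p : W} {i : ι} (h1 : q a = some p) (h2 : f p = some i) : (q a).bind f = some i := by
  rw [h1]
  exact h2

private theorem reach_of_walk {V : Type u} {W : Type w} {ι : Type v} (G : SimpleGraph V)
    (H : SimpleGraph W) (q : V → Option W) (hq : IsMinorMap G H q) (f : W → Option ι) (i : ι)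
    (p p' : {p : W | f p = some i}) (w : (H.induce {p | f p = some i}).Walk p p') :
    ∀ (a b : V) (ha : q a = some p.1) (hb : q b = some p'.1),
      (G.induce {a | (q a).bind f = some i}).Reachable ⟨a, bind_of ha p.2⟩ ⟨b, bind_of hb p'.2⟩ := by
  have key : ∀ (p : {p : W | f p = some i}) (a b : V) (ha : q a = some p.1) (hb : q b = some p.1),
      (G.induce {a | (q a).bind f = some i}).Reachable ⟨a, bind_of ha p.2⟩ ⟨b, bind_of hb p.2⟩ := by
    intro p a b ha hb
    have hsub : {a | q a = some p.1} ⊆ {a | (q a).bind f = some i} := fun c hc => bind_of hc p.2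
    have h1 := (hq.1 p.1).preconnected ⟨a, ha⟩ ⟨b, hb⟩
    exact h1.map (SimpleGraph.induceHomOfLE G hsub).toHom
  induction w with
  | nil =>
    intro a b ha hb
    exact key _ a b ha hb
  | cons hadj _ ih =>
    intro a b ha hb
    obtain ⟨c, d, hc, hd, hcd⟩ := hq.2 _ _ hadj
    refine (key _ a c ha hc).trans (SimpleGraph.Reachable.trans ?_ (ih d b hd hb))
    exact SimpleGraph.Adj.reachable (SimpleGraph.comap_adj.2 hcd)

/-- models lift along minor maps -/
theorem lift_model {V : Type u} {W : Type w} {ι : Type v} (G : SimpleGraph V) (H : SimpleGraph W)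
    (q : V → Option W) (hq : IsMinorMap G H q) (r : ι → V) (r' : ι → W)
    (hr : ∀ i, q (r i) = some (r' i)) (D : ι → ι → Prop) (f : W → Option ι)
    (hf : Model H r' D f) : Model G r D (fun a => (q a).bind f) := by
  refine ⟨fun i => bind_of (hr i) (hf.1 i), fun i => ?_, fun x y hD => ?_⟩
  · have hc := hf.2.1 i
    have hne : Nonempty {a | (q a).bind f = some i} := by
      obtain ⟨p⟩ := hc.nonempty
      obtain ⟨a⟩ := (hq.1 p.1).nonempty
      exact ⟨⟨a.1, bind_of a.2 p.2⟩⟩
    refine ⟨fun a b => ?_⟩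
    obtain ⟨p, hp1, hp2⟩ := Option.bind_eq_some_iff.1 a.2
    obtain ⟨p', hp1', hp2'⟩ := Option.bind_eq_some_iff.1 b.2
    obtain ⟨w⟩ := hc.preconnected ⟨p, hp2⟩ ⟨p', hp2'⟩
    exact reach_of_walk G H q hq f i ⟨p, hp2⟩ ⟨p', hp2'⟩ w a.1 b.1 hp1 hp1'
  · obtain ⟨p, p', h1, h2, h3⟩ := hf.2.2 x y hD
    obtain ⟨a, b, ha, hb, hab⟩ := hq.2 p p' h3
    exact ⟨a, b, bind_of ha h1, bind_of hb h2, hab⟩

end Pool.Agent.Lib.MP_534936_co.TK
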