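import Pool.Agent.Lib.MP_534936_co.TK.Step
import Pool.Agent.Lib.MP_534936_co.TK.Lift

set_option autoImplicit false

namespace Pool.Agent.Lib.MP_534936_co.TK

universe u v

/-- induction form -/
theorem model_exists_aux {ι : Type v} [Fintype ι] (side : ι → Bool) (D : ι → ι → Prop)
    (hD : ∀ x y, D x y → side x = true ∧ side y = false) (n : ℕ) :
    ∀ (V : Type u) (_ : Fintype V), Fintype.card V = n → ∀ (G : SimpleGraph V)
      (φ : V → ι) (r : ι → V) (_ : ∀ i, φ (r i) = i)
      (_ : ∀ x y, D x y → Linked G φ r x y), ∃ f : V → Option ι, Model G r D f := by
  induction n using Nat.strong_induction_on with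
  | _ n ih =>
    intro V _ hn G φ r hr hlink
    by_cases hne : ∃ a, a ≠ r (φ a)
    · obtain ⟨W, hW, H, q, φ', r', hc, hq, hr1, hr2, hl⟩ := step G φ r hr side D hD hlink hne
      obtain ⟨f, hf⟩ := ih (Fintype.card W) (by omega) W hW rfl H φ' r' hr2 hl
      exact ⟨_, lift_model G H q hq r r' hr1 D f hf⟩
    · push Not at hne
      refine ⟨fun a => some (φ a), fun i => congrArg some (hr i), ?_, ?_⟩
      · intro i
        have hset : {a | some (φ a) = some i} = {r i} := by
          ext a
          simp only [Set.mem_setOf_eq, Set.mem_singleton_iff, Option.some.injEq]
          constructor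
          · intro h
            rw [← h]
            exact hne a
          · intro h
            rw [h]
            exact hr i
        rw [hset]
        have hs : Subsingleton ({r i} : Set V) := by
          constructor
          rintro ⟨a, ha⟩ ⟨b, hb⟩
          apply Subtype.ext
          rw [Set.mem_singleton_iff] at ha hb
          show a = b
          rw [ha, hb]
        have hnn : Nonempty ({r i} : Set V) := ⟨⟨r i, rfl⟩⟩
        refine ⟨?_⟩
        intro a b
        rw [Subsingleton.elim a b]
      · intro x y hxy
        refine ⟨r x, r y, congrArg some (hr x), congrArg some (hr y), ?_⟩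
        by_contra hadj
        have hmem := hlink x y hxy {r x} rfl ?_
        · rw [Set.mem_singleton_iff] at hmem
          have h1 : y = x := by
            have h2 := hr y
            rw [hmem, hr x] at h2
            exact h2.symm
          have h3 := hD x y hxy
          rw [h1] at h3
          rw [h3.1] at h3
          exact absurd h3.2 (by decide)
        · intro a ha b hab hb
          rw [Set.mem_singleton_iff] at ha
          rw [ha] at hab
          rcases hb with hb | hb
          · exfalso
            have h4 := hne b
            rw [hb] at h4
            rw [h4] at hab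
            exact G.loopless.irrefl _ hab
          · exfalso
            have h4 := hne b
            rw [hb] at h4
            rw [h4] at hab
            exact hadj hab

/-- Theorem K for a labelling of all vertices (induction on the number of vertices) -/
theorem model_exists {V : Type u} [Fintype V] {ι : Type v} [Fintype ι] (G : SimpleGraph V)
    (φ : V → ι) (r : ι → V) (hr : ∀ i, φ (r i) = i) (side : ι → Bool) (D : ι → ι → Prop)
    (hD : ∀ x y, D x y → side x = true ∧ side y = false)
    (hlink : ∀ x y, D x y → Linked G φ r x y) :
    ∃ f : V → Option ι, Model G r D f :=
  model_exists_aux side D hD (Fintype.card V) V inferInstance rfl G φ r hr hlink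

end Pool.Agent.Lib.MP_534936_co.TK
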