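import Pool.Agent.Lib.MP_534936_co.TK.Defs

set_option autoImplicit false

namespace Pool.Agent.Lib.MP_534936_co.TK

open Classical in
/-- sum over a set of coordinates, as a functional -/
private noncomputable def span1Fun {U : Type*} [Fintype U] (C : Set U) : (U → ℚ) →ₗ[ℚ] ℚ where
  toFun w := ∑ z, if z ∈ C then w z else 0
  map_add' w w' := by
    rw [← Finset.sum_add_distrib]
    refine Finset.sum_congr rfl (fun z _ => ?_)
    by_cases hz : z ∈ C <;> simp [hz]
  map_smul' c w := by
    rw [RingHom.id_apply, smul_eq_mul, Finset.mul_sum]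
    refine Finset.sum_congr rfl (fun z _ => ?_)
    by_cases hz : z ∈ C <;> simp [hz]

open Classical in
private theorem span1Fun_dvec {U : Type*} [Fintype U] (C : Set U) (u v : U) :
    span1Fun C (dvec (u, v)) = (if u ∈ C then (1 : ℚ) else 0) - (if v ∈ C then (1 : ℚ) else 0) := by
  have h1 : ∀ w : U, (∑ z, if z ∈ C then (if z = w then (1 : ℚ) else 0) else 0)
      = if w ∈ C then (1 : ℚ) else 0 := by
    intro w
    rw [Finset.sum_eq_single w]
    · simp
    · intro z _ hz
      simp [hz]
    · intro h
      exact absurd (Finset.mem_univ w) h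
  rw [← h1 u, ← h1 v, ← Finset.sum_sub_distrib]
  change (∑ z, if z ∈ C then dvec (u, v) z else 0) = _
  refine Finset.sum_congr rfl (fun z _ => ?_)
  unfold dvec
  by_cases hz : z ∈ C <;> simp [hz]

/-- an edge vector in the span of the edge vectors of `E` joins vertices of one class of the
equivalence generated by `E` (functional: sum over the class). -/
theorem eqvGen_of_mem_span {U : Type*} [Fintype U] (E : Set (U × U)) (b b' : U)
    (h : dvec (b, b') ∈ Submodule.span ℚ (dvec '' E)) :
    Relation.EqvGen (fun u v => (u, v) ∈ E) b b' := by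
  classical
  set C : Set U := {u | Relation.EqvGen (fun u v => (u, v) ∈ E) b u} with hC
  have hle : Submodule.span ℚ (dvec '' E) ≤ LinearMap.ker (span1Fun C) := by
    rw [Submodule.span_le]
    rintro w ⟨⟨u, v⟩, huv, rfl⟩
    rw [SetLike.mem_coe, LinearMap.mem_ker, span1Fun_dvec]
    have hiff : u ∈ C ↔ v ∈ C := by
      constructor
      · intro hu
        exact Relation.EqvGen.trans _ _ _ hu (Relation.EqvGen.rel _ _ huv)
      · intro hv
        exact Relation.EqvGen.trans _ _ _ hv (Relation.EqvGen.symm _ _ (Relation.EqvGen.rel _ _ huv))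
    by_cases hu : u ∈ C
    · simp [hu, hiff.mp hu]
    · have hv : v ∉ C := fun hv => hu (hiff.mpr hv)
      simp [hu, hv]
  have h0 := hle h
  rw [LinearMap.mem_ker, span1Fun_dvec] at h0
  have hb : b ∈ C := Relation.EqvGen.refl _
  by_contra hb'
  have hb'' : b' ∉ C := hb'
  rw [if_pos hb, if_neg hb''] at h0
  norm_num at h0

end Pool.Agent.Lib.MP_534936_co.TK
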