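import Pool.Agent.Lib.MP_534936_co.TK.Defs

set_option autoImplicit false

namespace Pool.Agent.Lib.MP_534936_co.TK

/-- dimension bound: edges inside the fibres of a surjective map `π : U → Y` -/
theorem finrank_span_le {U Y : Type*} [Fintype U] [Fintype Y] (π : U → Y)
    (hπ : Function.Surjective π) (E : Set (U × U)) (hE : ∀ e ∈ E, π e.1 = π e.2) :
    Module.finrank ℚ (Submodule.span ℚ (dvec '' E)) + Fintype.card Y ≤ Fintype.card U := by
  classical
  let L : (U → ℚ) →ₗ[ℚ] (Y → ℚ) :=
    { toFun := fun g y => ∑ z : U, if π z = y then g z else 0
      map_add' := by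
        intro g h
        funext y
        simp only [Pi.add_apply]
        rw [← Finset.sum_add_distrib]
        apply Finset.sum_congr rfl
        intro z _
        split_ifs <;> simp
      map_smul' := by
        intro c g
        funext y
        simp only [Pi.smul_apply, smul_eq_mul, RingHom.id_apply]
        rw [Finset.mul_sum]
        apply Finset.sum_congr rfl
        intro z _
        split_ifs <;> simp }
  have hL : ∀ g y, L g y = ∑ z : U, if π z = y then g z else 0 := fun g y => rfl
  have hsurj : Function.Surjective L := by
    intro h
    obtain ⟨s, hs⟩ := hπ.hasRightInverse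
    refine ⟨fun z => if z = s (π z) then h (π z) else 0, ?_⟩
    funext y
    rw [hL]
    rw [Finset.sum_eq_single (s y)]
    · rw [if_pos (hs y)]
      rw [if_pos (by rw [hs y]), hs y]
    · intro z _ hz
      by_cases h1 : π z = y
      · rw [if_pos h1, if_neg]
        intro h2
        apply hz
        rw [← h1]
        exact h2
      · rw [if_neg h1]
    · intro h1
      exact absurd (Finset.mem_univ _) h1
  have hker : Submodule.span ℚ (dvec '' E) ≤ LinearMap.ker L := by
    rw [Submodule.span_le]
    rintro _ ⟨e, he, rfl⟩
    rw [SetLike.mem_coe, LinearMap.mem_ker]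
    funext y
    rw [hL]
    have h1 : ∀ z : U, (if π z = y then dvec e z else 0) =
        (if z = e.1 then (if π e.1 = y then (1 : ℚ) else 0) else 0) -
        (if z = e.2 then (if π e.2 = y then (1 : ℚ) else 0) else 0) := by
      intro z
      unfold dvec
      by_cases h2 : z = e.1
      · by_cases h3 : z = e.2
        · subst h2
          rw [if_pos rfl, if_pos h3, if_pos rfl, if_pos h3, ← h3]
          split_ifs <;> simp
        · subst h2
          rw [if_pos rfl, if_neg h3, if_pos rfl, if_neg h3]
          split_ifs <;> simp
      · by_cases h3 : z = e.2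
        · subst h3
          rw [if_neg h2, if_pos rfl, if_neg h2, if_pos rfl]
          split_ifs <;> simp
        · rw [if_neg h2, if_neg h3, if_neg h2, if_neg h3]
          split_ifs <;> simp
    rw [Finset.sum_congr rfl (fun z _ => h1 z), Finset.sum_sub_distrib]
    rw [Finset.sum_ite_eq' Finset.univ e.1, Finset.sum_ite_eq' Finset.univ e.2]
    simp only [Finset.mem_univ, if_true, Pi.zero_apply]
    rw [hE e he]
    ring
  have h2 := LinearMap.finrank_range_add_finrank_ker L
  have h3 : LinearMap.range L = ⊤ := LinearMap.range_eq_top.mpr hsurj
  rw [h3, finrank_top, Module.finrank_fintype_fun_eq_card, Module.finrank_fintype_fun_eq_card] at h2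
  have h4 := Submodule.finrank_mono hker
  omega

end Pool.Agent.Lib.MP_534936_co.TK
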