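import Pool.Agent.Lib.MP_534936_co.TK.Rado
import Pool.Agent.Lib.MP_534936_co.TK.Span1
import Pool.Agent.Lib.MP_534936_co.TK.Span2

set_option autoImplicit false

namespace Pool.Agent.Lib.MP_534936_co.TK

private theorem Merge_dvec_eq {U : Type*} {b b' : U} (h : dvec (b, b') = 0) : b = b' := by
  classical
  by_contra hne
  have h1 := congrFun h b
  simp only [dvec, Pi.zero_apply] at h1
  rw [if_neg hne] at h1
  norm_num at h1

/-- **The merging lemma.** `R α` = the pairs that `α` can join. If `|U| - |Y| ≤ |P|` there is a nonempty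
set `S` of elements which are all useless, or which have representatives `w α ∈ R α` that generate
everything that `S` generates. Proof: `S` nonempty of minimum size with
`finrank (span of all vectors of S) ≤ |S|`; then `|S| = 1` and the rank is `0`, or the rank is `|S|` and
Rado's theorem applies to `S`; the representatives are a basis of the span. -/
theorem merge {P U Y : Type*} [Fintype P] [Fintype U] [Fintype Y] (π : U → Y)
    (hπ : Function.Surjective π) (R : P → U → U → Prop)
    (hR : ∀ α b b', R α b b' → π b = π b') (hP : Nonempty P)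
    (hcard : Fintype.card U ≤ Fintype.card P + Fintype.card Y) :
    ∃ S : Finset P, S.Nonempty ∧
      ((∀ α ∈ S, ∀ b b', R α b b' → b = b') ∨
        ∃ w : P → U × U, (∀ α ∈ S, R α (w α).1 (w α).2) ∧
          ∀ α ∈ S, ∀ b b', R α b b' →
            Relation.EqvGen (fun u v => ∃ α' ∈ S, w α' = (u, v)) b b') := by
  classical
  let T : P → Finset (U → ℚ) := fun α => (Finset.univ.filter (fun e : U × U => R α e.1 e.2)).image dvec
  have memT : ∀ α x, x ∈ T α ↔ ∃ e : U × U, R α e.1 e.2 ∧ dvec e = x := by
    intro α x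
    simp only [T, Finset.mem_image, Finset.mem_filter, Finset.mem_univ, true_and]
  let r : Finset P → ℕ := fun S => Module.finrank ℚ (Submodule.span ℚ (⋃ α ∈ S, (T α : Set (U → ℚ))))
  have rmono : ∀ S' S : Finset P, S' ⊆ S → r S' ≤ r S := by
    intro S' S h
    refine Submodule.finrank_mono (Submodule.span_mono ?_)
    exact Set.biUnion_subset_biUnion_left (fun x hx => h hx)
  have huniv : r Finset.univ ≤ (Finset.univ : Finset P).card := by
    have h1 := finrank_span_le π hπ {e : U × U | ∃ α, R α e.1 e.2} (fun e he => by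
      obtain ⟨α, hα⟩ := he
      exact hR α _ _ hα)
    have h2 : (⋃ α ∈ (Finset.univ : Finset P), (T α : Set (U → ℚ))) = dvec '' {e : U × U | ∃ α, R α e.1 e.2} := by
      ext x
      simp only [Finset.mem_univ, Set.iUnion_true, Set.mem_iUnion, Finset.mem_coe, memT, Set.mem_image,
        Set.mem_ofPred_eq]
      constructor
      · rintro ⟨α, e, h, he⟩
        exact ⟨e, ⟨α, h⟩, he⟩
      · rintro ⟨e, ⟨α, h⟩, he⟩
        exact ⟨α, e, h, he⟩
    have h3 : r Finset.univ = Module.finrank ℚ (Submodule.span ℚ (dvec '' {e : U × U | ∃ α, R α e.1 e.2})) := by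
      simp only [r]
      rw [h2]
    rw [h3, Finset.card_univ]
    omega
  obtain ⟨S, hS, hmin⟩ := Finset.exists_min_image
    (Finset.univ.filter (fun S : Finset P => S.Nonempty ∧ r S ≤ S.card)) Finset.card
    ⟨Finset.univ, by
      rw [Finset.mem_filter]
      exact ⟨Finset.mem_univ _, Finset.univ_nonempty, huniv⟩⟩
  simp only [Finset.mem_filter, Finset.mem_univ, true_and] at hS hmin
  obtain ⟨hSne, hSr⟩ := hS
  refine ⟨S, hSne, ?_⟩
  by_cases hr0 : r S = 0
  · left
    intro α hα b b' hb
    apply Merge_dvec_eq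
    have h1 : dvec (b, b') ∈ Submodule.span ℚ (⋃ α ∈ S, (T α : Set (U → ℚ))) := by
      apply Submodule.subset_span
      simp only [Set.mem_iUnion, Finset.mem_coe, memT]
      exact ⟨α, hα, (b, b'), hb, rfl⟩
    have h2 : Submodule.span ℚ (⋃ α ∈ S, (T α : Set (U → ℚ))) = ⊥ := Submodule.finrank_eq_zero.1 hr0
    rw [h2] at h1
    exact (Submodule.mem_bot ℚ).1 h1
  · right
    have hSeq : r S = S.card := by
      by_contra hne
      obtain ⟨α, hα⟩ := hSne
      have h1 : (S.erase α).card = S.card - 1 := Finset.card_erase_of_mem hα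
      have h2 := rmono (S.erase α) S (Finset.erase_subset α S)
      have h3 : (S.erase α).Nonempty := by
        rw [← Finset.card_pos]
        omega
      have h4 := hmin (S.erase α) ⟨h3, by omega⟩
      omega
    have hrado : ∀ S' : Finset P, S' ⊆ S →
        S'.card ≤ Module.finrank ℚ (Submodule.span ℚ (⋃ α ∈ S', (T α : Set (U → ℚ)))) := by
      intro S' hS'
      rcases S'.eq_empty_or_nonempty with h0 | h0
      · rw [h0]
        simp
      · by_contra hcon
        have h1 := hmin S' ⟨h0, by
          change Module.finrank ℚ (Submodule.span ℚ (⋃ α ∈ S', (T α : Set (U → ℚ)))) ≤ S'.card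
          omega⟩
        have h2 : S' = S := Finset.eq_of_subset_of_card_le hS' h1
        subst h2
        apply hcon
        exact le_of_eq hSeq.symm
    obtain ⟨t, ht, hli⟩ := rado S T hrado
    have hex : ∀ α, α ∈ S → ∃ e : U × U, R α e.1 e.2 ∧ dvec e = t α := fun α hα => (memT α _).1 (ht α hα)
    obtain ⟨α₀, hα₀⟩ := hSne
    let w : P → U × U := fun α => if h : α ∈ S then (hex α h).choose else (hex α₀ hα₀).choose
    have hw : ∀ α (h : α ∈ S), R α (w α).1 (w α).2 ∧ dvec (w α) = t α := by
      intro α h
      have : w α = (hex α h).choose := by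
        simp only [w]
        rw [dif_pos h]
      rw [this]
      exact (hex α h).choose_spec
    refine ⟨w, fun α hα => (hw α hα).1, ?_⟩
    intro α hα b b' hb
    have hE : Set.range (fun α : {α // α ∈ S} => t α) = dvec '' {e : U × U | ∃ α' ∈ S, w α' = e} := by
      ext x
      simp only [Set.mem_range, Subtype.exists, Set.mem_image, Set.mem_ofPred_eq]
      constructor
      · rintro ⟨a, ha, rfl⟩
        exact ⟨w a, ⟨a, ha, rfl⟩, (hw a ha).2⟩
      · rintro ⟨e, ⟨a, ha, rfl⟩, rfl⟩
        exact ⟨a, ha, (hw a ha).2.symm⟩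
    have hle : Submodule.span ℚ (Set.range (fun α : {α // α ∈ S} => t α)) ≤
        Submodule.span ℚ (⋃ α ∈ S, (T α : Set (U → ℚ))) := by
      refine Submodule.span_mono ?_
      rintro x ⟨a, rfl⟩
      simp only [Set.mem_iUnion, Finset.mem_coe]
      exact ⟨a.1, a.2, ht a.1 a.2⟩
    have hfr : Module.finrank ℚ (Submodule.span ℚ (Set.range (fun α : {α // α ∈ S} => t α))) = S.card := by
      rw [finrank_span_eq_card hli]
      simp
    have heq := Submodule.eq_of_le_of_finrank_eq hle (by rw [hfr]; exact hSeq.symm)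
    have hmem : dvec (b, b') ∈ Submodule.span ℚ (dvec '' {e : U × U | ∃ α' ∈ S, w α' = e}) := by
      rw [← hE, heq]
      apply Submodule.subset_span
      simp only [Set.mem_iUnion, Finset.mem_coe, memT]
      exact ⟨α, hα, (b, b'), hb, rfl⟩
    exact eqvGen_of_mem_span _ b b' hmem

end Pool.Agent.Lib.MP_534936_co.TK
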