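import Pool.Agent.Lib.MP_534936_co.TK.Contr
import Pool.Agent.Lib.MP_534936_co.TK.Del

set_option autoImplicit false

namespace Pool.Agent.Lib.MP_534936_co.TK

universe u v

/-- step 3: the move. `S` = a nonempty set of non-root vertices of the first side, `w α = (b, b')` two
(different or equal) neighbours of `α` of the same label `y` with `D (φ α) y`; `α` is contracted with all its neighbours of
this label. The pairs `w` generate all pairs of the elements of `S`. -/
theorem step_move {V : Type u} [Fintype V] {ι : Type v} (G : SimpleGraph V) (φ : V → ι)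
    (r : ι → V) (hr : ∀ i, φ (r i) = i) (side : ι → Bool) (D : ι → ι → Prop)
    (hD : ∀ x y, D x y → side x = true ∧ side y = false)
    (hprop : ∀ a b, G.Adj a b → φ a ≠ φ b)
    (hlink : ∀ x y, D x y → Linked G φ r x y)
    (S : Set V) (hne : S.Nonempty) (hS : ∀ α ∈ S, α ≠ r (φ α) ∧ side (φ α) = true)
    (w : V → V × V)
    (hw : ∀ α ∈ S, G.Adj α (w α).1 ∧ G.Adj α (w α).2 ∧ φ (w α).1 = φ (w α).2 ∧
      D (φ α) (φ (w α).1))
    (hgen : ∀ α ∈ S, ∀ b b', G.Adj α b → G.Adj α b' → φ b = φ b' → D (φ α) (φ b) →
      Relation.EqvGen (fun u v => ∃ α' ∈ S, w α' = (u, v)) b b') :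
    Smaller G r D := by
  classical
  set Q : V → V → Prop := fun a b => a ∈ S ∧ G.Adj a b ∧ φ b = φ (w a).1 with hQdef
  have hQ : ∀ a b, Q a b → G.Adj a b := fun a b h => h.2.1
  have hnS : ∀ b, side (φ b) = false → b ∉ S := by
    intro b hb hbS
    have := (hS b hbS).2
    rw [hb] at this
    exact absurd this (by decide)
  have hrS : ∀ i, r i ∉ S := by
    intro i hi
    exact (hS _ hi).1 (by rw [hr])
  set ψ : V → ι := fun a => if a ∈ S then φ (w a).1 else φ a with hψdef
  have hψQ : ∀ a b, Q a b → ψ a = ψ b := by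
    intro a b h
    have h1 : ψ a = φ (w a).1 := by simp only [hψdef]; rw [if_pos h.1]
    have hb : b ∉ S := by
      apply hnS
      rw [h.2.2]
      exact (hD _ _ (hw a h.1).2.2.2).2
    have h2 : ψ b = φ b := by simp only [hψdef]; rw [if_neg hb]
    rw [h1, h2, h.2.2]
  have hψE : ∀ a b, Relation.EqvGen Q a b → ψ a = ψ b := by
    intro a b h
    induction h with
    | rel a b h => exact hψQ a b h
    | refl a => rfl
    | symm a b _ ih => exact ih.symm
    | trans a b c _ _ ih1 ih2 => exact ih1.trans ih2
  have hψn : ∀ a, a ∉ S → ψ a = φ a := by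
    intro a ha
    simp only [hψdef]
    rw [if_neg ha]
  -- the pairs of `w` become equal
  have hwE : ∀ b b', Relation.EqvGen (fun u v => ∃ α' ∈ S, w α' = (u, v)) b b' →
      Relation.EqvGen Q b b' := by
    intro b b' h
    induction h with
    | rel a b h =>
      obtain ⟨α', hα, hwα⟩ := h
      have h' := hw α' hα
      rw [hwα] at h'
      have h1 : Q α' a := ⟨hα, h'.1, by rw [hwα]⟩
      have h2 : Q α' b := ⟨hα, h'.2.1, by rw [hwα]; exact h'.2.2.1.symm⟩
      exact Relation.EqvGen.trans _ _ _ (Relation.EqvGen.symm _ _ (Relation.EqvGen.rel _ _ h1))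
        (Relation.EqvGen.rel _ _ h2)
    | refl a => exact Relation.EqvGen.refl _
    | symm a b _ ih => exact Relation.EqvGen.symm _ _ ih
    | trans a b c _ _ ih1 ih2 => exact Relation.EqvGen.trans _ _ _ ih1 ih2
  let _ : Fintype (Quotient (Relation.EqvGen.setoid Q)) :=
    Fintype.ofSurjective (Quotient.mk (Relation.EqvGen.setoid Q)) Quotient.mk_surjective
  refine ⟨Quotient (Relation.EqvGen.setoid Q), inferInstance, _, _,
    Quotient.lift ψ (fun a b h => hψE a b h), fun i => Quotient.mk _ (r i), ?_,
    contr_minorMap G Q hQ, ?_, ?_, ?_⟩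
  · obtain ⟨α, hα⟩ := hne
    refine Fintype.card_lt_of_surjective_not_injective
      (Quotient.mk (Relation.EqvGen.setoid Q)) Quotient.mk_surjective ?_
    intro hinj
    have h1 : Q α (w α).1 := ⟨hα, (hw α hα).1, rfl⟩
    have h2 : Quotient.mk (Relation.EqvGen.setoid Q) α
        = Quotient.mk (Relation.EqvGen.setoid Q) (w α).1 :=
      Quotient.sound (Relation.EqvGen.rel _ _ h1)
    exact (hw α hα).1.ne (hinj h2)
  · intro i
    rfl
  · intro i
    change ψ (r i) = i
    rw [hψn _ (hrS i), hr]
  · intro x y hxy C hxC hC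
    obtain ⟨hsx, hsy⟩ := hD x y hxy
    have hyS : ∀ b, φ b = y → b ∉ S := fun b hb => hnS b (by rw [hb]; exact hsy)
    set C0 : Set V := {a | (a ∉ S ∧ (φ a = x ∨ φ a = y) ∧
        Quotient.mk (Relation.EqvGen.setoid Q) a ∈ C) ∨
      (a ∈ S ∧ φ a = x ∧ ∃ b, G.Adj a b ∧ φ b = y ∧
        Quotient.mk (Relation.EqvGen.setoid Q) b ∈ C)} with hC0
    have hmem : r y ∈ C0 := by
      refine hlink x y hxy C0 (Or.inl ⟨hrS x, Or.inl (hr x), hxC⟩) ?_
      intro a ha b hab hb
      rcases ha with ⟨haS, hax, haC⟩ | ⟨haS, hax, b0, hab0, hb0, hb0C⟩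
      · by_cases hbS : b ∈ S
        · right
          have hbx : φ b = x := by
            rcases hb with h | h
            · exact h
            · exact absurd hbS (hyS b h)
          refine ⟨hbS, hbx, a, hab.symm, ?_, haC⟩
          rcases hax with h | h
          · exact absurd (h.trans hbx.symm) (hprop a b hab)
          · exact h
        · left
          refine ⟨hbS, hb, ?_⟩
          by_cases heq : Quotient.mk (Relation.EqvGen.setoid Q) a
              = Quotient.mk (Relation.EqvGen.setoid Q) b
          · rw [← heq]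
            exact haC
          · refine hC _ haC _ ?_ ?_
            · rw [SimpleGraph.fromRel_adj]
              exact ⟨heq, Or.inl ⟨a, b, rfl, rfl, hab⟩⟩
            · change ψ b = x ∨ ψ b = y
              rw [hψn b hbS]
              exact hb
      · have hby : φ b = y := by
          rcases hb with h | h
          · exact absurd (hax.trans h.symm) (hprop a b hab)
          · exact h
        left
        refine ⟨hyS b hby, Or.inr hby, ?_⟩
        have h1 : Relation.EqvGen Q b0 b := by
          apply hwE
          refine hgen a haS b0 b hab0 hab (hb0.trans hby.symm) ?_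
          rw [hax, hb0]
          exact hxy
        have h2 : Quotient.mk (Relation.EqvGen.setoid Q) b0
            = Quotient.mk (Relation.EqvGen.setoid Q) b := Quotient.sound h1
        rw [← h2]
        exact hb0C
    rcases hmem with ⟨_, _, h⟩ | ⟨h, _⟩
    · exact h
    · exact absurd h (hrS y)

end Pool.Agent.Lib.MP_534936_co.TK
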