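import Pool.Agent.Lib.MP_534936_co.TK.StepDelete
import Pool.Agent.Lib.MP_534936_co.TK.StepMove
import Pool.Agent.Lib.MP_534936_co.TK.Merge

set_option autoImplicit false

namespace Pool.Agent.Lib.MP_534936_co.TK

universe u v

/-- the number of vertices of the second side: roots and non-roots -/
theorem card_side_false {V : Type u} [Fintype V] {ι : Type v} [Fintype ι]
    (φ : V → ι) (r : ι → V) (hr : ∀ i, φ (r i) = i) (side : ι → Bool) :
    Nat.card {b : V // side (φ b) = false} =
      Nat.card {a : V // a ≠ r (φ a) ∧ side (φ a) = false} +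
        Nat.card {y : ι // side y = false} := by
  classical
  rw [← Nat.card_sum]
  refine Nat.card_congr
    { toFun := fun b => if h : b.1 = r (φ b.1) then Sum.inr ⟨φ b.1, b.2⟩
        else Sum.inl ⟨b.1, h, b.2⟩
      invFun := fun s => Sum.elim (fun a => ⟨a.1, a.2.2⟩)
        (fun y => ⟨r y.1, by rw [hr]; exact y.2⟩) s
      left_inv := ?_
      right_inv := ?_ }
  · intro b
    by_cases h : b.1 = r (φ b.1)
    · simp only [dif_pos h, Sum.elim_inr]
      exact Subtype.ext h.symm
    · simp only [dif_neg h, Sum.elim_inl]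
  · intro s
    rcases s with a | y
    · have h : ¬ (a.1 = r (φ a.1)) := a.2.1
      simp only [Sum.elim_inl, dif_neg h]
    · have h : r y.1 = r (φ (r y.1)) := by rw [hr]
      simp only [Sum.elim_inr]
      rw [dif_pos h]
      congr 1
      exact Subtype.ext (hr y.1)

/-- oriented step: at least as many non-root vertices on the first side as on the second, and at
least one (use `merge` with `P` = non-root vertices of the first side, `U` = all vertices of the second side,
`Y` = labels of the second side) -/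
theorem step_oriented {V : Type u} [Fintype V] {ι : Type v} [Fintype ι] (G : SimpleGraph V)
    (φ : V → ι) (r : ι → V) (hr : ∀ i, φ (r i) = i) (side : ι → Bool) (D : ι → ι → Prop)
    (hD : ∀ x y, D x y → side x = true ∧ side y = false)
    (hprop : ∀ a b, G.Adj a b → φ a ≠ φ b)
    (hlink : ∀ x y, D x y → Linked G φ r x y)
    (hne : ∃ a, a ≠ r (φ a) ∧ side (φ a) = true)
    (hcard : Nat.card {a : V // a ≠ r (φ a) ∧ side (φ a) = false} ≤
      Nat.card {a : V // a ≠ r (φ a) ∧ side (φ a) = true}) : Smaller G r D := by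
  classical
  obtain ⟨S, hSne, hS⟩ := merge (P := {a : V // a ≠ r (φ a) ∧ side (φ a) = true})
    (U := {b : V // side (φ b) = false}) (Y := {y : ι // side y = false})
    (fun b => ⟨φ b.1, b.2⟩)
    (fun y => ⟨⟨r y.1, by rw [hr]; exact y.2⟩, Subtype.ext (hr y.1)⟩)
    (fun α b b' => G.Adj α.1 b.1 ∧ G.Adj α.1 b'.1 ∧ φ b.1 = φ b'.1 ∧ D (φ α.1) (φ b.1))
    (fun α b b' h => Subtype.ext h.2.2.1)
    (by obtain ⟨a, ha⟩ := hne; exact ⟨⟨a, ha⟩⟩)
    (by
      have h := card_side_false φ r hr side
      simp only [Nat.card_eq_fintype_card] at h hcard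
      omega)
  obtain ⟨z, hz⟩ := hSne
  rcases hS with hS | ⟨w, hw, hgen⟩
  · refine step_delete G φ r hr side D hD hprop hlink z.1 z.2.1 z.2.2 ?_
    intro b b' hb hb' hbb hDb
    have hsb : side (φ b) = false := (hD _ _ hDb).2
    have hsb' : side (φ b') = false := by rw [← hbb]; exact hsb
    have := hS z hz ⟨b, hsb⟩ ⟨b', hsb'⟩ ⟨hb, hb', hbb, hDb⟩
    exact congrArg Subtype.val this
  · refine step_move G φ r hr side D hD hprop hlink
      {a | ∃ h : a ≠ r (φ a) ∧ side (φ a) = true,
        (⟨a, h⟩ : {a : V // a ≠ r (φ a) ∧ side (φ a) = true}) ∈ S}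
      ⟨z.1, z.2, hz⟩ (fun α hα => hα.1)
      (fun a => if h : a ≠ r (φ a) ∧ side (φ a) = true then
        ((w ⟨a, h⟩).1.1, (w ⟨a, h⟩).2.1) else (a, a)) ?_ ?_
    · rintro α ⟨hα, hαS⟩
      simp only [dif_pos hα]
      exact hw _ hαS
    · rintro α ⟨hα, hαS⟩ b b' hb hb' hbb hDb
      have hsb : side (φ b) = false := (hD _ _ hDb).2
      have hsb' : side (φ b') = false := by rw [← hbb]; exact hsb
      have h1 := hgen ⟨α, hα⟩ hαS ⟨b, hsb⟩ ⟨b', hsb'⟩ ⟨hb, hb', hbb, hDb⟩
      have key : ∀ u v : {b : V // side (φ b) = false},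
          Relation.EqvGen (fun u v => ∃ α' ∈ S, w α' = (u, v)) u v →
          Relation.EqvGen (fun u v : V => ∃ α' ∈ {a | ∃ h : a ≠ r (φ a) ∧ side (φ a) = true,
              (⟨a, h⟩ : {a : V // a ≠ r (φ a) ∧ side (φ a) = true}) ∈ S},
            (if h : α' ≠ r (φ α') ∧ side (φ α') = true then
              ((w ⟨α', h⟩).1.1, (w ⟨α', h⟩).2.1) else (α', α')) = (u, v)) u.1 v.1 := by
        intro u v huv
        induction huv with
        | rel u v h =>
          obtain ⟨α', hα', hw'⟩ := h
          refine Relation.EqvGen.rel _ _ ⟨α'.1, ⟨α'.2, hα'⟩, ?_⟩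
          rw [dif_pos α'.2]
          have : (⟨α'.1, α'.2⟩ : {a : V // a ≠ r (φ a) ∧ side (φ a) = true}) = α' := rfl
          rw [this, hw']
        | refl u => exact Relation.EqvGen.refl _
        | symm u v _ ih => exact Relation.EqvGen.symm _ _ ih
        | trans u v t _ _ ih1 ih2 => exact Relation.EqvGen.trans _ _ _ ih1 ih2
      exact key _ _ h1

end Pool.Agent.Lib.MP_534936_co.TK
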