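import Mathlib

set_option autoImplicit false

namespace Pool.Agent.Lib.MP_534936_co.TK

/-- Removing one of two different elements keeps the condition of Rado. -/
private theorem rado_remove {P : Type*} [DecidableEq P] {W : Type*} [DecidableEq W]
    [AddCommGroup W] [Module ℚ W] [FiniteDimensional ℚ W]
    (S : Finset P) (T : P → Finset W)
    (h : ∀ S' : Finset P, S' ⊆ S →
      S'.card ≤ Module.finrank ℚ (Submodule.span ℚ (⋃ α ∈ S', (T α : Set W))))
    (a : P) (x y : W) (hxy : x ≠ y) :
    (∀ S' : Finset P, S' ⊆ S → S'.card ≤ Module.finrank ℚ (Submodule.span ℚ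
        (⋃ α ∈ S', ((Function.update T a ((T a).erase x)) α : Set W)))) ∨
    (∀ S' : Finset P, S' ⊆ S → S'.card ≤ Module.finrank ℚ (Submodule.span ℚ
        (⋃ α ∈ S', ((Function.update T a ((T a).erase y)) α : Set W)))) := by
  by_contra hcon
  push Not at hcon
  obtain ⟨⟨S1, hS1, h1⟩, ⟨S2, hS2, h2⟩⟩ := hcon
  -- both sets contain `a`
  have key : ∀ (S' : Finset P) (z : W), S' ⊆ S →
      Module.finrank ℚ (Submodule.span ℚ
        (⋃ α ∈ S', ((Function.update T a ((T a).erase z)) α : Set W))) < S'.card → a ∈ S' := by
    intro S' z hS' hlt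
    by_contra ha
    have hEq : (⋃ α ∈ S', ((Function.update T a ((T a).erase z)) α : Set W))
        = ⋃ α ∈ S', (T α : Set W) := by
      apply Set.iUnion₂_congr
      intro α hα
      have : α ≠ a := fun e => ha (e ▸ hα)
      rw [Function.update_of_ne this]
    rw [hEq] at hlt
    exact absurd (h S' hS') (not_le.mpr hlt)
  have ha1 : a ∈ S1 := key S1 x hS1 h1
  have ha2 : a ∈ S2 := key S2 y hS2 h2
  set U := Submodule.span ℚ (⋃ α ∈ S1, ((Function.update T a ((T a).erase x)) α : Set W)) with hU
  set V := Submodule.span ℚ (⋃ α ∈ S2, ((Function.update T a ((T a).erase y)) α : Set W)) with hV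
  have hmod := Submodule.finrank_sup_add_finrank_inf_eq U V
  -- the sum contains everything of `S1 ∪ S2`
  have hsup : Submodule.span ℚ (⋃ α ∈ S1 ∪ S2, (T α : Set W)) ≤ U ⊔ V := by
    rw [Submodule.span_le]
    intro w hw
    simp only [Set.mem_iUnion] at hw
    obtain ⟨α, hα, hw⟩ := hw
    by_cases hαa : α = a
    · subst hαa
      by_cases hwx : w = x
      · apply Submodule.mem_sup_right
        apply Submodule.subset_span
        simp only [Set.mem_iUnion]
        refine ⟨α, ha2, ?_⟩
        rw [Function.update_self]
        have hwy : w ≠ y := by rw [hwx]; exact hxy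
        exact Finset.mem_coe.mpr (Finset.mem_erase.mpr ⟨hwy, Finset.mem_coe.mp hw⟩)
      · apply Submodule.mem_sup_left
        apply Submodule.subset_span
        simp only [Set.mem_iUnion]
        refine ⟨α, ha1, ?_⟩
        rw [Function.update_self]
        exact Finset.mem_coe.mpr (Finset.mem_erase.mpr ⟨hwx, Finset.mem_coe.mp hw⟩)
    · rcases Finset.mem_union.mp hα with hα | hα
      · apply Submodule.mem_sup_left
        apply Submodule.subset_span
        simp only [Set.mem_iUnion]
        refine ⟨α, hα, ?_⟩
        rw [Function.update_of_ne hαa]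
        exact hw
      · apply Submodule.mem_sup_right
        apply Submodule.subset_span
        simp only [Set.mem_iUnion]
        refine ⟨α, hα, ?_⟩
        rw [Function.update_of_ne hαa]
        exact hw
  have hinf : Submodule.span ℚ (⋃ α ∈ (S1 ∩ S2).erase a, (T α : Set W)) ≤ U ⊓ V := by
    rw [Submodule.span_le]
    intro w hw
    simp only [Set.mem_iUnion] at hw
    obtain ⟨α, hα, hw⟩ := hw
    have hαa : α ≠ a := (Finset.mem_erase.mp hα).1
    have hα12 := Finset.mem_inter.mp (Finset.mem_erase.mp hα).2
    refine ⟨?_, ?_⟩
    · apply Submodule.subset_span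
      simp only [Set.mem_iUnion]
      refine ⟨α, hα12.1, ?_⟩
      rw [Function.update_of_ne hαa]
      exact hw
    · apply Submodule.subset_span
      simp only [Set.mem_iUnion]
      refine ⟨α, hα12.2, ?_⟩
      rw [Function.update_of_ne hαa]
      exact hw
  have h3 := h (S1 ∪ S2) (Finset.union_subset hS1 hS2)
  have h4 := h ((S1 ∩ S2).erase a)
    ((Finset.erase_subset _ _).trans (Finset.inter_subset_left.trans hS1))
  have h5 := Submodule.finrank_mono hsup
  have h6 := Submodule.finrank_mono hinf
  have h7 := Finset.card_union_add_card_inter S1 S2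
  have h8 : ((S1 ∩ S2).erase a).card + 1 = (S1 ∩ S2).card :=
    Finset.card_erase_add_one (Finset.mem_inter.mpr ⟨ha1, ha2⟩)
  omega

/-- **Rado's theorem** (linear form): if every subfamily of `S' ⊆ S` spans dimension at least `|S'|`
there are linearly independent representatives. Proof: remove elements of the `T α` one by one
(Rado's proof of Hall's theorem, submodularity of the dimension of spans). -/
theorem rado {P : Type*} {W : Type*} [AddCommGroup W] [Module ℚ W] [FiniteDimensional ℚ W]
    (S : Finset P) (T : P → Finset W)
    (h : ∀ S' : Finset P, S' ⊆ S →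
      S'.card ≤ Module.finrank ℚ (Submodule.span ℚ (⋃ α ∈ S', (T α : Set W)))) :
    ∃ t : P → W, (∀ α ∈ S, t α ∈ T α) ∧ LinearIndependent ℚ (fun α : {α // α ∈ S} => t α) := by
  classical
  obtain ⟨n, hn⟩ : ∃ n, n = ∑ α ∈ S, (T α).card := ⟨_, rfl⟩
  induction n using Nat.strong_induction_on generalizing T with
  | _ n ih =>
    by_cases hall : ∀ α ∈ S, (T α).card ≤ 1
    · have hne : ∀ α ∈ S, (T α).Nonempty := by
        intro α hα
        rw [Finset.nonempty_iff_ne_empty]
        intro he
        have h1 := h {α} (Finset.singleton_subset_iff.mpr hα)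
        simp [he] at h1
      have hex : ∀ α, ∃ w : W, α ∈ S → T α = {w} := by
        intro α
        by_cases hα : α ∈ S
        · obtain ⟨w, hw⟩ := Finset.card_eq_one.mp
            (le_antisymm (hall α hα) (Finset.card_pos.mpr (hne α hα)))
          exact ⟨w, fun _ => hw⟩
        · exact ⟨0, fun h => absurd h hα⟩
      choose t ht using hex
      refine ⟨t, fun α hα => by rw [ht α hα]; exact Finset.mem_singleton_self _, ?_⟩
      rw [linearIndependent_iff_card_le_finrank_span]
      have hEq : (⋃ α ∈ S, (T α : Set W)) = Set.range (fun α : {α // α ∈ S} => t α) := by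
        ext w
        simp only [Set.mem_iUnion, Set.mem_range, Subtype.exists]
        constructor
        · rintro ⟨α, hα, hw⟩
          rw [ht α hα] at hw
          exact ⟨α, hα, (Finset.mem_singleton.mp (Finset.mem_coe.mp hw)).symm⟩
        · rintro ⟨α, hα, rfl⟩
          refine ⟨α, hα, ?_⟩
          rw [ht α hα]
          exact Finset.mem_coe.mpr (Finset.mem_singleton_self _)
      have h1 := h S (Finset.Subset.refl S)
      rw [hEq] at h1
      simpa [Set.finrank] using h1
    · push Not at hall
      obtain ⟨a, haS, hcard⟩ := hall
      obtain ⟨x, hx, y, hy, hxy⟩ := Finset.one_lt_card.mp hcard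
      have fin : ∀ z ∈ T a, (∀ S' : Finset P, S' ⊆ S → S'.card ≤ Module.finrank ℚ (Submodule.span ℚ
            (⋃ α ∈ S', ((Function.update T a ((T a).erase z)) α : Set W)))) →
          ∃ t : P → W, (∀ α ∈ S, t α ∈ T α) ∧
            LinearIndependent ℚ (fun α : {α // α ∈ S} => t α) := by
        intro z hz hz'
        have hlt : ∑ α ∈ S, ((Function.update T a ((T a).erase z)) α).card < n := by
          rw [hn]
          apply Finset.sum_lt_sum
          · intro α _
            by_cases hαa : α = a
            · subst hαa
              rw [Function.update_self]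
              exact Finset.card_le_card (Finset.erase_subset _ _)
            · rw [Function.update_of_ne hαa]
          · refine ⟨a, haS, ?_⟩
            rw [Function.update_self]
            exact Finset.card_erase_lt_of_mem hz
        obtain ⟨t, ht, hli⟩ := ih _ hlt (Function.update T a ((T a).erase z)) hz' rfl
        refine ⟨t, ?_, hli⟩
        intro α hα
        have := ht α hα
        by_cases hαa : α = a
        · subst hαa
          rw [Function.update_self] at this
          exact Finset.mem_of_mem_erase this
        · rw [Function.update_of_ne hαa] at this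
          exact this
      rcases rado_remove S T h a x y hxy with h' | h'
      · exact fin x hx h'
      · exact fin y hy h'

end Pool.Agent.Lib.MP_534936_co.TK
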