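import Pool.Agent.Lib.MP_534936_co.TK.StepMono
import Pool.Agent.Lib.MP_534936_co.TK.Oriented

set_option autoImplicit false

namespace Pool.Agent.Lib.MP_534936_co.TK

universe u v

/-- one reduction step -/
theorem step {V : Type u} [Fintype V] {ι : Type v} [Fintype ι] (G : SimpleGraph V)
    (φ : V → ι) (r : ι → V) (hr : ∀ i, φ (r i) = i) (side : ι → Bool) (D : ι → ι → Prop)
    (hD : ∀ x y, D x y → side x = true ∧ side y = false)
    (hlink : ∀ x y, D x y → Linked G φ r x y)
    (hne : ∃ a, a ≠ r (φ a)) : Smaller G r D := by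
  classical
  by_cases hprop : ∀ a b, G.Adj a b → φ a ≠ φ b
  · -- the swapped version
    have hswap : (∃ a, a ≠ r (φ a) ∧ side (φ a) = false) →
        Nat.card {a : V // a ≠ r (φ a) ∧ side (φ a) = true} ≤
          Nat.card {a : V // a ≠ r (φ a) ∧ side (φ a) = false} → Smaller G r D := by
      intro hex hcard
      have hcard' : Nat.card {a : V // a ≠ r (φ a) ∧ (fun i => !side i) (φ a) = false} ≤
          Nat.card {a : V // a ≠ r (φ a) ∧ (fun i => !side i) (φ a) = true} := by
        have e1 : Nat.card {a : V // a ≠ r (φ a) ∧ (fun i => !side i) (φ a) = false} =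
            Nat.card {a : V // a ≠ r (φ a) ∧ side (φ a) = true} :=
          Nat.card_congr (Equiv.subtypeEquivRight fun a => by simp)
        have e2 : Nat.card {a : V // a ≠ r (φ a) ∧ (fun i => !side i) (φ a) = true} =
            Nat.card {a : V // a ≠ r (φ a) ∧ side (φ a) = false} :=
          Nat.card_congr (Equiv.subtypeEquivRight fun a => by simp)
        rw [e1, e2]
        exact hcard
      obtain ⟨W, hW, H, q, φ', r', hlt, hmm, hq, hφ', hl⟩ := step_oriented G φ r hr
        (fun i => !side i) (fun x y => D y x)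
        (fun x y hxy => by
          have := hD y x hxy
          simp [this.1, this.2]) hprop
        (fun x y hxy => linked_symm G φ r hr y x (hlink y x hxy))
        (by
          obtain ⟨a, ha, hs⟩ := hex
          exact ⟨a, ha, by simp [hs]⟩) hcard'
      exact ⟨W, hW, H, q, φ', r', hlt, hmm, hq, hφ', fun x y hxy =>
        linked_symm H φ' r' hφ' y x (hl y x hxy)⟩
    have hdir : (∃ a, a ≠ r (φ a) ∧ side (φ a) = true) →
        Nat.card {a : V // a ≠ r (φ a) ∧ side (φ a) = false} ≤
          Nat.card {a : V // a ≠ r (φ a) ∧ side (φ a) = true} → Smaller G r D :=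
      fun hex hcard => step_oriented G φ r hr side D hD hprop hlink hex hcard
    have hpos : ∀ b : Bool, (∃ a, a ≠ r (φ a) ∧ side (φ a) = b) ↔
        0 < Nat.card {a : V // a ≠ r (φ a) ∧ side (φ a) = b} := by
      intro b
      rw [Nat.card_pos_iff]
      constructor
      · rintro ⟨a, ha⟩
        exact ⟨⟨⟨a, ha⟩⟩, inferInstance⟩
      · rintro ⟨⟨⟨a, ha⟩⟩, _⟩
        exact ⟨a, ha⟩
    obtain ⟨a, ha⟩ := hne
    have hsome : 0 < Nat.card {a : V // a ≠ r (φ a) ∧ side (φ a) = true} ∨
        0 < Nat.card {a : V // a ≠ r (φ a) ∧ side (φ a) = false} := by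
      cases hb : side (φ a) with
      | true => exact Or.inl ((hpos true).1 ⟨a, ha, hb⟩)
      | false => exact Or.inr ((hpos false).1 ⟨a, ha, hb⟩)
    rcases le_total (Nat.card {a : V // a ≠ r (φ a) ∧ side (φ a) = false})
      (Nat.card {a : V // a ≠ r (φ a) ∧ side (φ a) = true}) with hle | hle
    · exact hdir ((hpos true).2 (by omega)) hle
    · exact hswap ((hpos false).2 (by omega)) hle
  · push Not at hprop
    obtain ⟨a, b, hab, h⟩ := hprop
    exact step_mono G φ r hr D hlink a b hab h

end Pool.Agent.Lib.MP_534936_co.TK
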