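import Pool.Agent.Lib.MP_534936_co.TK.Contr
import Pool.Agent.Lib.MP_534936_co.TK.Del

set_option autoImplicit false

namespace Pool.Agent.Lib.MP_534936_co.TK

universe u v

/-- step 2: delete a useless non-root vertex `z` of a label of the first side:
it has at most one neighbour of every label `y` with `D (φ z) y` -/
theorem step_delete {V : Type u} [Fintype V] {ι : Type v} (G : SimpleGraph V) (φ : V → ι)
    (r : ι → V) (hr : ∀ i, φ (r i) = i) (side : ι → Bool) (D : ι → ι → Prop)
    (hD : ∀ x y, D x y → side x = true ∧ side y = false)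
    (hprop : ∀ a b, G.Adj a b → φ a ≠ φ b)
    (hlink : ∀ x y, D x y → Linked G φ r x y)
    (z : V) (hz : z ≠ r (φ z)) (hzs : side (φ z) = true)
    (huse : ∀ b b', G.Adj z b → G.Adj z b' → φ b = φ b' → D (φ z) (φ b) → b = b') :
    Smaller G r D := by
  classical
  have hrz : ∀ i, r i ≠ z := by
    intro i h
    apply hz
    rw [← h, hr]
  refine ⟨{a | a ≠ z}, inferInstance, G.induce {a | a ≠ z},
    (fun a => if h : a ≠ z then some (⟨a, h⟩ : {a | a ≠ z}) else none),
    (fun a => φ a.1), (fun i => ⟨r i, hrz i⟩), ?_, ?_, ?_, ?_, ?_⟩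
  · exact Fintype.card_subtype_lt (x := z) (fun h => h rfl)
  · have h := delete_minorMap G z
    convert h using 2
  · intro i
    simp [hrz i]
  · intro i
    exact hr i
  · intro x y hxy C' hx hcl
    have hsx := hD x y hxy
    have hzy : φ z ≠ y := by
      intro h
      rw [h, hsx.2] at hzs
      exact Bool.noConfusion hzs
    set C : Set V := {a | (∃ h : a ≠ z, (⟨a, h⟩ : {a | a ≠ z}) ∈ C' ∧ (φ a = x ∨ φ a = y)) ∨
      (a = z ∧ φ z = x ∧ ∃ b, ∃ h : b ≠ z, G.Adj z b ∧ φ b = y ∧ (⟨b, h⟩ : {a | a ≠ z}) ∈ C')}
      with hC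
    have hmem : r y ∈ C := by
      refine hlink x y hxy C ?_ ?_
      · left
        exact ⟨hrz x, hx, Or.inl (hr x)⟩
      · rintro a (⟨ha, haC, hlab⟩ | ⟨rfl, hzx, b0, hb0, hadj0, hb0y, hb0C⟩) b hab hb
        · by_cases hbz : b = z
          · subst hbz
            right
            rcases hb with hb | hb
            · refine ⟨rfl, hb, a, ha, hab.symm, ?_, haC⟩
              rcases hlab with hlab | hlab
              · exact absurd (hlab.trans hb.symm) (hprop _ _ hab)
              · exact hlab
            · exact absurd hb hzy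
          · left
            refine ⟨hbz, ?_, hb⟩
            exact hcl ⟨a, ha⟩ haC ⟨b, hbz⟩ (by simpa using hab) hb
        · have hbz : b ≠ a := hab.ne'
          have hby : φ b = y := by
            rcases hb with hb | hb
            · exact absurd (hzx.trans hb.symm) (hprop _ _ hab)
            · exact hb
          have hbb : b = b0 := huse b b0 hab hadj0 (hby.trans hb0y.symm) (by rw [hzx, hby]; exact hxy)
          subst hbb
          left
          exact ⟨hbz, hb0C, Or.inr hby⟩
    rcases hmem with ⟨_, h, _⟩ | ⟨h, _⟩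
    · exact h
    · exact absurd h (hrz y)

end Pool.Agent.Lib.MP_534936_co.TK
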