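import Pool.Agent.Lib.MP_534936_co.TK.Contr
import Pool.Agent.Lib.MP_534936_co.TK.Del

set_option autoImplicit false

namespace Pool.Agent.Lib.MP_534936_co.TK

universe u v

private theorem eqv_phi {V : Type u} {ι : Type v} (φ : V → ι) (a b : V) (h : φ a = φ b)
    {c d : V} (hcd : Relation.EqvGen (fun p p' : V => p = a ∧ p' = b) c d) : φ c = φ d := by
  induction hcd with
  | rel x y hxy => rw [hxy.1, hxy.2, h]
  | refl x => rfl
  | symm x y _ ih => exact ih.symm
  | trans x y z _ _ ih1 ih2 => exact ih1.trans ih2

/-- step 1: contract a monochromatic edge -/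
theorem step_mono {V : Type u} [Fintype V] {ι : Type v} (G : SimpleGraph V) (φ : V → ι) (r : ι → V)
    (hr : ∀ i, φ (r i) = i) (D : ι → ι → Prop) (hlink : ∀ x y, D x y → Linked G φ r x y)
    (a b : V) (hab : G.Adj a b) (h : φ a = φ b) : Smaller G r D := by
  classical
  have hmm := contr_minorMap G (fun p p' : V => p = a ∧ p' = b) (fun c d hcd => by
    rw [hcd.1, hcd.2]; exact hab)
  let s : Setoid V := Relation.EqvGen.setoid (fun p p' : V => p = a ∧ p' = b)
  have hfin : Finite (Quotient s) := Finite.of_surjective (Quotient.mk s) Quotient.mk_surjective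
  let inst : Fintype (Quotient s) := Fintype.ofFinite _
  let φ' : Quotient s → ι := Quotient.lift φ (fun c d hcd => eqv_phi φ a b h hcd)
  refine ⟨Quotient s, inst, _, _, φ', fun i => Quotient.mk s (r i), ?_, hmm, ?_, ?_,
    ?_⟩
  · have hsurj : Function.Surjective (Quotient.mk s) := Quotient.mk_surjective
    have hninj : ¬ Function.Injective (Quotient.mk s) := by
      intro hinj
      have he : Quotient.mk s a = Quotient.mk s b :=
        Quotient.sound (Relation.EqvGen.rel a b ⟨rfl, rfl⟩)
      exact hab.ne (hinj he)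
    exact Fintype.card_lt_of_surjective_not_injective _ hsurj hninj
  · intro i
    rfl
  · intro i
    exact hr i
  · intro x y hxy C' hx hC
    have hkey := hlink x y hxy {c | Quotient.mk s c ∈ C'} hx (by
      intro c hc d hcd hd
      by_cases he : Quotient.mk s c = Quotient.mk s d
      · change Quotient.mk s d ∈ C'
        rw [← he]; exact hc
      · refine hC (Quotient.mk s c) hc (Quotient.mk s d) ?_ hd
        rw [SimpleGraph.fromRel_adj]
        exact ⟨he, Or.inl ⟨c, d, rfl, rfl, hcd⟩⟩)
    exact hkey

end Pool.Agent.Lib.MP_534936_co.TK
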